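import Pool.Agent.Hhelper97.TopBlow.Psi

/-!
Continuity of the displacement function.
-/

set_option autoImplicit false

open Filter Topology Finset

namespace Pool.Agent.Hhelper97.TopBlow

variable {N : ℕ}

theorem tendsto_psi_zero_axis {e : ℕ} {p : ℂ × ((ℂ × ℂ) × (Fin N → ℂ))} (hp : p.2.1.2 = 0) :
    Tendsto (psi (N := N) e) (𝓝 p) (𝓝 0) := by
  rw [Metric.tendsto_nhds]
  intro ε hε
  obtain ⟨R, hR⟩ : ∃ R, R = ‖p.1‖ + 1 := ⟨_, rfl⟩
  have hR0 : 0 ≤ R := by rw [hR]; positivity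
  obtain ⟨T, hT⟩ : ∃ T, T = Tn p.2.2 + 1 := ⟨_, rfl⟩
  have hT0 : 0 ≤ T := by rw [hT]; have := Tn_nonneg p.2.2; linarith
  obtain ⟨K, hK⟩ : ∃ K, K = Cc N T * (2 * R / ε + 4 + Mc N e / ε) := ⟨_, rfl⟩
  have c0 : Continuous (fun q : ℂ × ((ℂ × ℂ) × (Fin N → ℂ)) => Tn q.2.2) :=
    continuous_Tn.comp (continuous_snd.comp continuous_snd)
  have c1 : Continuous (fun q : ℂ × ((ℂ × ℂ) × (Fin N → ℂ)) => ‖q.1‖) := by fun_prop
  have c2 : Continuous (fun q : ℂ × ((ℂ × ℂ) × (Fin N → ℂ)) => T * ‖q.2.1.2‖) := by fun_prop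
  have c4 : Continuous (fun q : ℂ × ((ℂ × ℂ) × (Fin N → ℂ)) => ‖q.2.1.2‖) := by fun_prop
  have c3 : Continuous (fun q : ℂ × ((ℂ × ℂ) × (Fin N → ℂ)) => ‖q.2.1.2‖ * K) := by fun_prop
  have e0 : ∀ᶠ q in 𝓝 p, Tn q.2.2 < T := (c0.tendsto p).eventually_lt_const (by rw [hT]; linarith)
  have e1 : ∀ᶠ q in 𝓝 p, ‖q.1‖ < R := (c1.tendsto p).eventually_lt_const (by rw [hR]; linarith)
  have e2 : ∀ᶠ q in 𝓝 p, T * ‖q.2.1.2‖ < ε :=
    (c2.tendsto p).eventually_lt_const (by rw [hp]; simpa)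
  have e3 : ∀ᶠ q in 𝓝 p, ‖q.2.1.2‖ < 1 := (c4.tendsto p).eventually_lt_const (by rw [hp]; simp)
  have e4 : ∀ᶠ q in 𝓝 p, ‖q.2.1.2‖ * K < ε ^ 2 :=
    (c3.tendsto p).eventually_lt_const (by rw [hp]; simp; positivity)
  filter_upwards [e0, e1, e2, e3, e4] with q h0 h1 h2 h3 h4
  rw [dist_zero_right]
  by_contra hcon
  push Not at hcon
  have hne : psi e q ≠ 0 := by
    intro h0
    rw [h0, norm_zero] at hcon
    linarith
  have hs : ε ≤ ‖sf q.2‖ := hcon.trans (norm_psi_le q)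
  have hz := left_ne_zero_of_mul (x0_le_of_psi_ne hne).1
  rcases le_total (((N : ℝ) + 1) * ‖q.2.1.2‖) ‖q.2.1.1‖ with hc | hc
  · have h5 := sf_le hz hc
    have h6 : Tn q.2.2 * ‖q.2.1.2‖ ≤ T * ‖q.2.1.2‖ :=
      mul_le_mul_of_nonneg_right h0.le (norm_nonneg _)
    linarith
  · have h5 := (constraint hne hc).1
    obtain ⟨s, hs'⟩ : ∃ s, s = ‖sf q.2‖ := ⟨_, rfl⟩
    rw [← hs'] at h5 hs
    have hs0 : 0 < s := lt_of_lt_of_le hε hs
    have hC := Cc_nonneg N hT0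
    have hCm := Cc_mono N (Tn_nonneg q.2.2) h0.le
    have hM := Mc_pos N e
    have h6 : 2 * ‖q.1‖ + 4 * s + Mc N e * ‖q.2.1.2‖ ≤ s * (2 * R / ε + 4 + Mc N e / ε) := by
      have h7 : 1 ≤ s / ε := (one_le_div hε).2 hs
      have h8 : 2 * ‖q.1‖ ≤ 2 * R * (s / ε) := by
        calc 2 * ‖q.1‖ ≤ 2 * R * 1 := by linarith
          _ ≤ 2 * R * (s / ε) := mul_le_mul_of_nonneg_left h7 (by linarith)
      have h9 : Mc N e * ‖q.2.1.2‖ ≤ Mc N e * (s / ε) := by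
        apply mul_le_mul_of_nonneg_left _ hM.le
        linarith
      calc _ ≤ 2 * R * (s / ε) + 4 * s + Mc N e * (s / ε) := by linarith
        _ = _ := by ring
    have h7 : s ^ 3 ≤ ‖q.2.1.2‖ * K * s := by
      refine h5.trans ?_
      calc Cc N (Tn q.2.2) * (‖q.2.1.2‖ * (2 * ‖q.1‖ + 4 * s + Mc N e * ‖q.2.1.2‖))
          ≤ Cc N T * (‖q.2.1.2‖ * (s * (2 * R / ε + 4 + Mc N e / ε))) := by
            apply mul_le_mul hCm _ _ hC
            · exact mul_le_mul_of_nonneg_left h6 (norm_nonneg _)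
            · positivity
        _ = ‖q.2.1.2‖ * K * s := by rw [hK]; ring
    have h8 : ‖q.2.1.2‖ * K * s < ε ^ 2 * s := mul_lt_mul_of_pos_right h4 hs0
    have h9 : ε ^ 2 * s ≤ s ^ 2 * s :=
      mul_le_mul_of_nonneg_right (pow_le_pow_left₀ hε.le hs 2) hs0.le
    have h10 : s ^ 2 * s = s ^ 3 := by ring
    linarith

theorem eventually_psi_zero {e : ℕ} {p : ℂ × ((ℂ × ℂ) × (Fin N → ℂ))} (hz : p.2.1.2 ≠ 0)
    (hP : LP (univ : Finset (Fin N)) p.2.1.1 p.2.1.2 = 0) : ∀ᶠ q in 𝓝 p, psi e q = 0 := by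
  have hz0 : 0 < ‖p.2.1.2‖ := norm_pos_iff.2 hz
  have hy : ‖p.2.1.1‖ < ((N : ℝ) + 1) * ‖p.2.1.2‖ := by
    unfold LP at hP
    rw [Finset.prod_eq_zero_iff] at hP
    obtain ⟨i, hi, h0⟩ := hP
    have h1 : p.2.1.1 = (((i : ℕ) : ℂ) + 1) * p.2.1.2 := sub_eq_zero.1 h0
    rw [h1, norm_mul, norm_succ]
    have h3 : (((i : ℕ) : ℝ) + 1) < (N : ℝ) + 1 := by
      have : ((i : ℕ) : ℝ) < N := by exact_mod_cast i.2
      linarith
    exact mul_lt_mul_of_pos_right h3 hz0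
  obtain ⟨R, hR⟩ : ∃ R, R = ‖p.1‖ + 1 := ⟨_, rfl⟩
  obtain ⟨Z, hZ⟩ : ∃ Z, Z = ‖p.2.1.2‖ + 1 := ⟨_, rfl⟩
  obtain ⟨T, hT⟩ : ∃ T, T = Tn p.2.2 + 1 := ⟨_, rfl⟩
  have hT0 : 0 ≤ T := by rw [hT]; have := Tn_nonneg p.2.2; linarith
  have hR0 : 0 ≤ R := by rw [hR]; positivity
  have hZ0 : 0 ≤ Z := by rw [hZ]; positivity
  have hC := Cc_nonneg N hT0
  have hM := Mc_pos N e
  obtain ⟨S, hS⟩ : ∃ S, S = 1 + Cc N T * (Z * (2 * R + 4 + Mc N e * Z)) := ⟨_, rfl⟩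
  have hS1 : 1 ≤ S := by
    rw [hS]
    have : 0 ≤ Cc N T * (Z * (2 * R + 4 + Mc N e * Z)) := by positivity
    linarith
  obtain ⟨K, hK⟩ : ∃ K, K = 2 * R + 4 * S + Mc N e * Z := ⟨_, rfl⟩
  have hK0 : 0 ≤ K := by rw [hK]; positivity
  have c0 : Continuous (fun q : ℂ × ((ℂ × ℂ) × (Fin N → ℂ)) =>
      LP (univ : Finset (Fin N)) q.2.1.1 q.2.1.2) :=
    (continuous_LP univ).comp (continuous_fst.comp continuous_snd)
  have c8 : Continuous (fun q : ℂ × ((ℂ × ℂ) × (Fin N → ℂ)) => Tn q.2.2) :=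
    continuous_Tn.comp (continuous_snd.comp continuous_snd)
  have c1 : Continuous (fun q : ℂ × ((ℂ × ℂ) × (Fin N → ℂ)) => ‖q.1‖) := by fun_prop
  have c2 : Continuous (fun q : ℂ × ((ℂ × ℂ) × (Fin N → ℂ)) => ‖q.2.1.2‖) := by fun_prop
  have c3 : Continuous (fun q : ℂ × ((ℂ × ℂ) × (Fin N → ℂ)) => ‖q.2.1.1‖) := by fun_prop
  have c4 : Continuous (fun q : ℂ × ((ℂ × ℂ) × (Fin N → ℂ)) => ((N : ℝ) + 1) * ‖q.2.1.2‖) := by
    fun_prop
  have c5 : Continuous (fun q : ℂ × ((ℂ × ℂ) × (Fin N → ℂ)) =>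
      K * ‖LP (univ : Finset (Fin N)) q.2.1.1 q.2.1.2‖ ^ 3) := by fun_prop
  have c6 : Continuous (fun q : ℂ × ((ℂ × ℂ) × (Fin N → ℂ)) => ‖q.2.1.2‖ ^ (3 * N + 2)) := by
    fun_prop
  have e0 : ∀ᶠ q in 𝓝 p, Tn q.2.2 < T := (c8.tendsto p).eventually_lt_const (by rw [hT]; linarith)
  have e1 : ∀ᶠ q in 𝓝 p, ‖q.1‖ < R := (c1.tendsto p).eventually_lt_const (by rw [hR]; linarith)
  have e2 : ∀ᶠ q in 𝓝 p, ‖q.2.1.2‖ < Z :=
    (c2.tendsto p).eventually_lt_const (by rw [hZ]; linarith)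
  have e3 : ∀ᶠ q in 𝓝 p, ‖q.2.1.1‖ < ((N : ℝ) + 1) * ‖q.2.1.2‖ :=
    (c3.tendsto p).eventually_lt (c4.tendsto p) hy
  have e4 : ∀ᶠ q in 𝓝 p, K * ‖LP (univ : Finset (Fin N)) q.2.1.1 q.2.1.2‖ ^ 3 <
      ‖q.2.1.2‖ ^ (3 * N + 2) := by
    apply (c5.tendsto p).eventually_lt (c6.tendsto p)
    rw [hP]
    simp only [norm_zero, ne_eq, OfNat.ofNat_ne_zero, not_false_eq_true, zero_pow, mul_zero]
    positivity
  filter_upwards [e0, e1, e2, e3, e4] with q h0 h1 h2 h3 h4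
  by_contra hne
  obtain ⟨h5, h6⟩ := constraint hne h3.le
  obtain ⟨s, hs⟩ : ∃ s, s = ‖sf q.2‖ := ⟨_, rfl⟩
  have hs0 : 0 ≤ s := by rw [hs]; exact norm_nonneg _
  rw [← hs] at h5 h6
  have hCm := Cc_mono N (Tn_nonneg q.2.2) h0.le
  have hq2 : Mc N e * ‖q.2.1.2‖ ≤ Mc N e * Z := mul_le_mul_of_nonneg_left h2.le hM.le
  have hsS : s ≤ S := by
    by_contra hcon
    push Not at hcon
    have hs1 : 1 ≤ s := by linarith
    have h7 : 2 * ‖q.1‖ + 4 * s + Mc N e * ‖q.2.1.2‖ ≤ (2 * R + 4 + Mc N e * Z) * s := by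
      have h8 : 2 * R ≤ 2 * R * s := le_mul_of_one_le_right (by linarith) hs1
      have h9 : Mc N e * Z ≤ Mc N e * Z * s := le_mul_of_one_le_right (by positivity) hs1
      nlinarith
    have h8 : s ^ 3 ≤ (S - 1) * s := by
      refine h5.trans ?_
      calc Cc N (Tn q.2.2) * (‖q.2.1.2‖ * (2 * ‖q.1‖ + 4 * s + Mc N e * ‖q.2.1.2‖))
          ≤ Cc N T * (Z * ((2 * R + 4 + Mc N e * Z) * s)) := by
            apply mul_le_mul hCm _ _ hC
            · apply mul_le_mul h2.le h7 _ hZ0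
              positivity
            · positivity
        _ = (S - 1) * s := by rw [hS]; ring
    have h9 : (S - 1) * s < s * s := by
      apply mul_lt_mul_of_pos_right _ (by linarith)
      linarith
    have h10 : s * s ≤ s ^ 3 := by nlinarith
    linarith
  have h7 : 2 * ‖q.1‖ + 4 * s + Mc N e * ‖q.2.1.2‖ ≤ K := by rw [hK]; linarith
  have h8 : ‖q.2.1.2‖ ^ (3 * N + 2) ≤ K * ‖LP (univ : Finset (Fin N)) q.2.1.1 q.2.1.2‖ ^ 3 :=
    h6.trans (mul_le_mul_of_nonneg_right h7 (by positivity))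
  linarith

theorem continuous_psi {e : ℕ} : Continuous (psi (N := N) e) := by
  rw [continuous_iff_continuousAt]
  intro p
  by_cases h : p.2.1.2 * LP (univ : Finset (Fin N)) p.2.1.1 p.2.1.2 = 0
  · change Tendsto (psi e) (𝓝 p) (𝓝 (psi e p))
    rw [psi_zero h]
    by_cases hz : p.2.1.2 = 0
    · exact tendsto_psi_zero_axis hz
    · have hP := (mul_eq_zero.1 h).resolve_left hz
      apply Tendsto.congr' _ tendsto_const_nhds
      filter_upwards [eventually_psi_zero (e := e) hz hP] with q hq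
      exact hq.symm
  · have c0 : Continuous (fun w : ℂ × ℂ => LP (univ : Finset (Fin N)) w.1 w.2) :=
      continuous_LP univ
    have hz := left_ne_zero_of_mul h
    have hP := right_ne_zero_of_mul h
    have d1 : ContinuousAt (sf (N := N)) p.2 := by
      have hsf : (sf (N := N)) = fun w => ∑ i, w.2 i * (w.1.2 ^ 2 / lf i w.1.1 w.1.2) := rfl
      rw [hsf]
      apply tendsto_finsetSum
      intro i _
      have g1 : Continuous (fun w : (ℂ × ℂ) × (Fin N → ℂ) => w.2 i) := by fun_prop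
      have g2 : Continuous (fun w : (ℂ × ℂ) × (Fin N → ℂ) => w.1.2 ^ 2) := by fun_prop
      have g3 : Continuous (fun w : (ℂ × ℂ) × (Fin N → ℂ) => lf i w.1.1 w.1.2) :=
        (continuous_lf i).comp continuous_fst
      exact (g1.continuousAt.mul (g2.continuousAt.div g3.continuousAt (lf_ne hP))).tendsto
    have d2 : ContinuousAt (Bf N) p.2.1 := by
      unfold Bf
      exact (by fun_prop : Continuous (fun w : ℂ × ℂ => w.2 ^ (3 * N + 2))).continuousAt.div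
        (c0.pow 3).continuousAt (pow_ne_zero _ hP)
    have d3 : ContinuousAt (x0 N e) p.2.1 := by
      unfold x0
      apply ContinuousAt.sub _ d2
      apply ContinuousAt.neg
      exact (by fun_prop : Continuous (fun w : ℂ × ℂ => w.1 ^ (1 + e))).continuousAt.div
        (by fun_prop : Continuous (fun w : ℂ × ℂ => w.2 ^ e)).continuousAt
        (pow_ne_zero _ hz)
    have d5 : ContinuousAt (fun w : (ℂ × ℂ) × (Fin N → ℂ) => x0 N e w.1) p.2 :=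
      d3.comp continuousAt_fst
    have d4 : ContinuousAt (rad (N := N) e) p.2 := by
      unfold rad
      exact ((continuousAt_const.mul d1.norm).add (d5.norm.div_const 2)).add
        (by fun_prop : Continuous (fun w : (ℂ × ℂ) × (Fin N → ℂ) => ‖w.1.2‖)).continuousAt
    have hr := rad_pos (e := e) (w := p.2) hz
    have t1 : ContinuousAt (fun q : ℂ × ((ℂ × ℂ) × (Fin N → ℂ)) => sf q.2) p :=
      d1.comp continuousAt_snd
    have t3 : ContinuousAt (fun q : ℂ × ((ℂ × ℂ) × (Fin N → ℂ)) => x0 N e q.2.1) p :=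
      d5.comp (f := fun q : ℂ × ((ℂ × ℂ) × (Fin N → ℂ)) => q.2) continuousAt_snd
    have t4 : ContinuousAt (fun q : ℂ × ((ℂ × ℂ) × (Fin N → ℂ)) => rad e q.2) p :=
      d4.comp continuousAt_snd
    have t5 : ContinuousAt (fun q : ℂ × ((ℂ × ℂ) × (Fin N → ℂ)) =>
        (max 0 (1 - ‖q.1 - x0 N e q.2.1‖ / rad e q.2) : ℝ)) p := by
      have t7 : ContinuousAt (fun q : ℂ × ((ℂ × ℂ) × (Fin N → ℂ)) =>
          (1 - ‖q.1 - x0 N e q.2.1‖ / rad e q.2 : ℝ)) p := by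
        apply continuousAt_const.sub
        exact (continuousAt_fst.sub t3).norm.div t4 hr.ne'
      have t8 : Continuous (fun t : ℝ => max 0 t) := by fun_prop
      exact t8.continuousAt.comp t7
    have t6 : ContinuousAt (fun q : ℂ × ((ℂ × ℂ) × (Fin N → ℂ)) =>
        sf q.2 * ((max 0 (1 - ‖q.1 - x0 N e q.2.1‖ / rad e q.2) : ℝ) : ℂ)) p :=
      t1.mul (Complex.continuous_ofReal.continuousAt.comp t5)
    apply t6.congr
    have c7 : Continuous (fun q : ℂ × ((ℂ × ℂ) × (Fin N → ℂ)) =>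
        q.2.1.2 * LP (univ : Finset (Fin N)) q.2.1.1 q.2.1.2) :=
      (continuous_snd.comp (continuous_fst.comp continuous_snd)).mul
        (c0.comp (continuous_fst.comp continuous_snd))
    filter_upwards [c7.continuousAt.eventually_ne h] with q hq
    unfold psi
    rw [if_pos hq]

end Pool.Agent.Hhelper97.TopBlow
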