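import Mathlib

/-!
Surface germs in complex three-space, the blow-up of the origin, and the exceptional curve.
-/

set_option autoImplicit false

namespace Pool.Agent.Hhelper97.TopBlow

/-- the complex projective plane: the lines through the origin of complex three-space -/
abbrev Plane : Type := Projectivization ℂ (Fin 3 → ℂ)

/-- the complex projective plane carries the quotient topology -/
noncomputable instance : TopologicalSpace Plane :=
  TopologicalSpace.coinduced
    (fun v : {v : Fin 3 → ℂ // v ≠ 0} => Projectivization.mk ℂ v.1 v.2) inferInstance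

/-- the zero set of a polynomial in complex three-space -/
def zeros (F : MvPolynomial (Fin 3) ℂ) : Set (Fin 3 → ℂ) := {p | MvPolynomial.eval p F = 0}

/-- The proper transform of the zero set of `F` under the blow-up of the origin.  The blow-up of the
origin is the set of pairs `(p, ℓ)` of a point and a line through the origin with `p ∈ ℓ`; the part
of the total transform off the exceptional plane consists of the pairs `(p, [p])` with `p ≠ 0` in the
zero set, and the proper transform is its closure. -/
def properTransform (F : MvPolynomial (Fin 3) ℂ) : Set ((Fin 3 → ℂ) × Plane) :=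
  closure {q | ∃ h : q.1 ≠ 0, q.1 ∈ zeros F ∧ q.2 = Projectivization.mk ℂ q.1 h}

/-- The exceptional curve: the points of the proper transform over the origin. -/
def exc (F : MvPolynomial (Fin 3) ℂ) : Set Plane := {ℓ | ((0 : Fin 3 → ℂ), ℓ) ∈ properTransform F}

open MvPolynomial in
/-- The linear form `y - (i + 1) z`, for `i = 0, …, N - 1`.  The coordinates of complex three-space
are `x = X 0`, `y = X 1` and `z = X 2`. -/
noncomputable def lF {N : ℕ} (i : Fin N) : MvPolynomial (Fin 3) ℂ :=
  X 1 - C (((i : ℕ) : ℂ) + 1) * X 2

open MvPolynomial in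
/-- The polynomials of the family: with `l_i = y - (i + 1) z`,
`F_t = (x z ^ e + y ^ (e + 1)) (∏ l_i) ^ 3 + z ^ (3 N + e + 2) +
  ∑ t_i z ^ (e + 2) l_i ^ 2 (∏_{k ≠ i} l_k) ^ 3`. -/
noncomputable def FF (N e : ℕ) (t : Fin N → ℂ) : MvPolynomial (Fin 3) ℂ :=
  (X 0 * X 2 ^ e + X 1 ^ (e + 1)) * (∏ i : Fin N, lF i) ^ 3 + X 2 ^ (3 * N + e + 2) +
    ∑ i : Fin N, C (t i) *
      (X 2 ^ (e + 2) * (lF i ^ 2 * (∏ k ∈ Finset.univ.erase i, lF k) ^ 3))

end Pool.Agent.Hhelper97.TopBlow
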