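import Pool.Agent.Hhelper97.TopBlow.Surf

/-!
The exceptional curves of the family are the zero sets of the leading forms.
-/

set_option autoImplicit false

open Filter Topology Finset MvPolynomial

namespace Pool.Agent.Hhelper97.TopBlow

variable {N : ℕ}

theorem continuous_proj :
    Continuous (fun v : {v : Fin 3 → ℂ // v ≠ 0} => (Projectivization.mk ℂ v.1 v.2 : Plane)) :=
  continuous_coinduced_rng

theorem continuous_mk {Z : Type} [TopologicalSpace Z] {f : Z → Fin 3 → ℂ} (hf : Continuous f)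
    (h0 : ∀ z, f z ≠ 0) : Continuous (fun z => (Projectivization.mk ℂ (f z) (h0 z) : Plane)) :=
  continuous_proj.comp (hf.subtype_mk h0)

theorem lf_smul (i : Fin N) (r y z : ℂ) : lf i (r * y) (r * z) = r * lf i y z := by
  unfold lf
  ring

theorem LP_smul (A : Finset (Fin N)) (t y z : ℂ) :
    LP A (t * y) (t * z) = t ^ A.card * LP A y z := by
  unfold LP
  rw [← Finset.prod_const, ← Finset.prod_mul_distrib]
  refine Finset.prod_congr rfl (fun i _ => ?_)
  exact lf_smul i t y z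

theorem Hf_smul (e : ℕ) (i : Fin N) (r y z : ℂ) :
    Hf e i (r * y) (r * z) = r ^ (3 * N + e + 1) * Hf e i y z := by
  have hN : 1 ≤ N := Nat.succ_le_of_lt (lt_of_le_of_lt (Nat.zero_le _) i.2)
  unfold Hf
  rw [LP_smul, lf_smul, Finset.card_erase_of_mem (Finset.mem_univ i), Finset.card_univ,
    Fintype.card_fin]
  have e1 : r ^ (3 * N + e + 1) = r ^ (2 + e) * (r ^ 2 * (r ^ (N - 1)) ^ 3) := by
    rw [← pow_mul, ← pow_add, ← pow_add]; congr 1; omega
  rw [e1]
  ring

/-- the leading form as a function of vectors -/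
noncomputable def Gv (N e : ℕ) (t : Fin N → ℂ) (v : Fin 3 → ℂ) : ℂ := G N e t (v 0) (v 1) (v 2)

theorem continuous_LP' (A : Finset (Fin N)) :
    Continuous (fun v : Fin 3 → ℂ => LP A (v 1) (v 2)) := by
  unfold LP lf
  fun_prop

theorem continuous_Gv (N e : ℕ) (t : Fin N → ℂ) : Continuous (Gv N e t) := by
  unfold Gv G Hf LP lf
  fun_prop

theorem Gv_smul (e : ℕ) (t : Fin N → ℂ) (r : ℂ) (v : Fin 3 → ℂ) :
    Gv N e t (r • v) = r ^ (3 * N + e + 1) * Gv N e t v := by
  unfold Gv G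
  simp only [Pi.smul_apply, smul_eq_mul, LP_smul, Hf_smul, Finset.card_univ, Fintype.card_fin]
  have e1 : r ^ (3 * N + e + 1) = r * r ^ e * (r ^ N) ^ 3 := by
    rw [← pow_mul, ← pow_succ', ← pow_add]; congr 1; ring
  have e2 : r ^ (3 * N + e + 1) = r ^ (1 + e) * (r ^ N) ^ 3 := by
    rw [← pow_mul, ← pow_add]; congr 1; ring
  have e4 : ∑ i, t i * (r ^ (3 * N + e + 1) * Hf e i (v 1) (v 2)) =
      r ^ (3 * N + e + 1) * ∑ i, t i * Hf e i (v 1) (v 2) := by
    rw [Finset.mul_sum]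
    refine Finset.sum_congr rfl (fun i _ => ?_)
    ring
  have e3 : (r * v 0 * (r * v 2) ^ e + (r * v 1) ^ (1 + e)) *
      (r ^ N * LP (univ : Finset (Fin N)) (v 1) (v 2)) ^ 3 =
      r ^ (3 * N + e + 1) * ((v 0 * v 2 ^ e + v 1 ^ (1 + e)) *
        LP (univ : Finset (Fin N)) (v 1) (v 2) ^ 3) := by
    rw [add_mul, add_mul, mul_add]
    nth_rewrite 1 [e1]
    rw [e2]
    ring
  rw [e4, e3]
  ring

theorem finite_zeros (A : Finset (Fin N)) : {η : ℂ | LP A η 1 = 0}.Finite := by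
  apply Set.Finite.subset (A.finite_toSet.image (fun i : Fin N => ((i : ℕ) : ℂ) + 1))
  intro η hη
  have h2 : LP A η 1 = 0 := hη
  unfold LP at h2
  rw [Finset.prod_eq_zero_iff] at h2
  obtain ⟨i, hi, h0⟩ := h2
  refine ⟨i, hi, ?_⟩
  unfold lf at h0
  rw [mul_one] at h0
  exact (sub_eq_zero.1 h0).symm

/-- vanishing of a homogeneous function at a point of the plane -/
theorem rep_zero_iff {H : (Fin 3 → ℂ) → ℂ} {k : ℕ}
    (hH : ∀ (t : ℂ) (v : Fin 3 → ℂ), H (t • v) = t ^ k * H v) (v : Fin 3 → ℂ) (hv : v ≠ 0) :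
    H (Projectivization.mk ℂ v hv).rep = 0 ↔ H v = 0 := by
  obtain ⟨a, ha⟩ := Projectivization.exists_smul_eq_mk_rep ℂ v hv
  have h1 : (Projectivization.mk ℂ v hv).rep = (a : ℂ) • v := ha.symm
  rw [h1, hH]
  have h2 : (a : ℂ) ^ k ≠ 0 := pow_ne_zero _ a.ne_zero
  constructor
  · intro h
    exact (mul_eq_zero.1 h).resolve_left h2
  · intro h
    rw [h, mul_zero]

theorem isClosed_rep {H : (Fin 3 → ℂ) → ℂ} {k : ℕ}
    (hH : ∀ (t : ℂ) (v : Fin 3 → ℂ), H (t • v) = t ^ k * H v) (hc : Continuous H) :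
    IsClosed {ℓ : Plane | H ℓ.rep = 0} := by
  rw [isClosed_coinduced]
  have : (fun v : {v : Fin 3 → ℂ // v ≠ 0} => (Projectivization.mk ℂ v.1 v.2 : Plane)) ⁻¹'
      {ℓ : Plane | H ℓ.rep = 0} = {v : {v : Fin 3 → ℂ // v ≠ 0} | H v.1 = 0} := by
    ext v
    exact rep_zero_iff hH v.1 v.2
  rw [this]
  exact isClosed_eq (hc.comp continuous_subtype_val) continuous_const

/-- the normalised leading form -/
noncomputable def Phi (N e : ℕ) (t : Fin N → ℂ) (ℓ : Plane) : ℝ := ‖Gv N e t ℓ.rep‖ / ‖ℓ.rep‖ ^ (3 * N + e + 1)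

theorem Phi_mk {e : ℕ} {t : Fin N → ℂ} (v : Fin 3 → ℂ) (hv : v ≠ 0) :
    Phi N e t (Projectivization.mk ℂ v hv) = ‖Gv N e t v‖ / ‖v‖ ^ (3 * N + e + 1) := by
  obtain ⟨a, ha⟩ := Projectivization.exists_smul_eq_mk_rep ℂ v hv
  have h1 : (Projectivization.mk ℂ v hv).rep = (a : ℂ) • v := ha.symm
  unfold Phi
  rw [h1, Gv_smul e t, norm_mul, norm_pow, norm_smul, mul_pow]
  have h2 : ‖(a : ℂ)‖ ^ (3 * N + e + 1) ≠ 0 := pow_ne_zero _ (norm_ne_zero_iff.2 a.ne_zero)
  rw [mul_div_mul_left _ _ h2]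

theorem continuous_Phi {e : ℕ} {t : Fin N → ℂ} : Continuous (Phi N e t) := by
  rw [continuous_coinduced_dom]
  have : Phi N e t ∘ (fun v : {v : Fin 3 → ℂ // v ≠ 0} => (Projectivization.mk ℂ v.1 v.2 : Plane)) =
      fun v : {v : Fin 3 → ℂ // v ≠ 0} => ‖Gv N e t v.1‖ / ‖v.1‖ ^ (3 * N + e + 1) := by
    funext v
    exact Phi_mk v.1 v.2
  rw [this]
  apply Continuous.div
  · exact ((continuous_Gv N e t).comp continuous_subtype_val).norm
  · exact (continuous_subtype_val.norm).pow _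
  · intro v
    exact pow_ne_zero _ (norm_ne_zero_iff.2 v.2)

theorem exc_subset {e : ℕ} {t : Fin N → ℂ} {ℓ : Plane} (hℓ : ℓ ∈ exc (FF N e t)) :
    Gv N e t ℓ.rep = 0 := by
  have hcl : IsClosed {q : (Fin 3 → ℂ) × Plane | Phi N e t q.2 ≤ ‖q.1‖} :=
    isClosed_le ((continuous_Phi).comp continuous_snd) continuous_fst.norm
  have hsub : {q : (Fin 3 → ℂ) × Plane | ∃ h : q.1 ≠ 0, q.1 ∈ zeros (FF N e t) ∧
      q.2 = Projectivization.mk ℂ q.1 h} ⊆
      {q : (Fin 3 → ℂ) × Plane | Phi N e t q.2 ≤ ‖q.1‖} := by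
    rintro ⟨p, ℓ'⟩ ⟨h, hp, hl⟩
    simp only at h hp hl
    change Phi N e t ℓ' ≤ ‖p‖
    rw [hl, Phi_mk]
    have h1 : eval p (FF N e t) = 0 := hp
    rw [eval_FF] at h1
    have h2 : Gv N e t p = -(p 2 ^ (3 * N + e + 2)) := by
      unfold Gv
      exact eq_neg_of_add_eq_zero_left h1
    have hp0 : 0 < ‖p‖ := norm_pos_iff.2 h
    rw [h2, norm_neg, norm_pow, div_le_iff₀ (by positivity), ← pow_succ']
    exact pow_le_pow_left₀ (norm_nonneg _) (norm_le_pi_norm p 2) _
  have h3 : ((0 : Fin 3 → ℂ), ℓ) ∈ {q : (Fin 3 → ℂ) × Plane | Phi N e t q.2 ≤ ‖q.1‖} :=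
    closure_minimal hsub hcl hℓ
  have h4 : Phi N e t ℓ ≤ 0 := by
    have : Phi N e t ℓ ≤ ‖(0 : Fin 3 → ℂ)‖ := h3
    rwa [norm_zero] at this
  have hr : 0 < ‖ℓ.rep‖ := norm_pos_iff.2 ℓ.rep_nonzero
  unfold Phi at h4
  rw [div_le_iff₀ (by positivity), zero_mul] at h4
  exact norm_le_zero_iff.1 h4

/-- parametrisation of the proper transform in the chart where the last coordinate is one -/
noncomputable def par (N e : ℕ) (t : Fin N → ℂ) (w : ℂ × ℂ) : (Fin 3 → ℂ) × Plane :=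
  ((-(Gv N e t ![w.1, w.2, 1])) • ![w.1, w.2, 1],
    Projectivization.mk ℂ ![w.1, w.2, 1] (by
      intro h
      have := congrFun h 2
      simp at this))

theorem vec_ne (x y : ℂ) : (![x, y, 1] : Fin 3 → ℂ) ≠ 0 := by
  intro h
  have := congrFun h 2
  simp at this

theorem continuous_vec : Continuous (fun w : ℂ × ℂ => (![w.1, w.2, 1] : Fin 3 → ℂ)) := by
  apply continuous_pi
  intro i
  fin_cases i
  · exact continuous_fst
  · exact continuous_snd
  · exact continuous_const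

theorem continuous_par (N e : ℕ) (t : Fin N → ℂ) : Continuous (par N e t) := by
  unfold par
  apply Continuous.prodMk
  · exact (((continuous_Gv N e t).comp continuous_vec).neg).smul continuous_vec
  · exact continuous_mk continuous_vec (fun w => vec_ne w.1 w.2)

theorem par_mem_of_ne {e : ℕ} {t : Fin N → ℂ} {w : ℂ × ℂ} (h : Gv N e t ![w.1, w.2, 1] ≠ 0) :
    par N e t w ∈ properTransform (FF N e t) := by
  apply subset_closure
  have h1 : (-(Gv N e t ![w.1, w.2, 1])) • (![w.1, w.2, 1] : Fin 3 → ℂ) ≠ 0 :=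
    smul_ne_zero (neg_ne_zero.2 h) (vec_ne _ _)
  refine ⟨h1, ?_, ?_⟩
  · change eval _ (FF N e t) = 0
    rw [eval_FF]
    obtain ⟨u, hu⟩ : ∃ u, u = -(Gv N e t ![w.1, w.2, 1]) := ⟨_, rfl⟩
    have h2 : Gv N e t (u • ![w.1, w.2, 1]) = u ^ (3 * N + e + 1) * -u := by
      rw [Gv_smul e t, hu, neg_neg]
    have h3 : (u • ![w.1, w.2, 1] : Fin 3 → ℂ) 2 = u := by simp
    change Gv N e t ((-(Gv N e t ![w.1, w.2, 1])) • ![w.1, w.2, 1]) +
      ((-(Gv N e t ![w.1, w.2, 1])) • ![w.1, w.2, 1] : Fin 3 → ℂ) 2 ^ (3 * N + e + 2) = 0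
    rw [← hu, h2, h3, pow_succ]
    ring
  · unfold par
    rw [Projectivization.mk_eq_mk_iff']
    refine ⟨(-(Gv N e t ![w.1, w.2, 1]))⁻¹, ?_⟩
    simp only
    rw [smul_smul, inv_mul_cancel₀ (neg_ne_zero.2 h), one_smul]

theorem par_mem {e : ℕ} {t : Fin N → ℂ} (w : ℂ × ℂ) :
    par N e t w ∈ properTransform (FF N e t) := by
  -- first the points off the lines
  have hA : ∀ x y : ℂ, LP (univ : Finset (Fin N)) y 1 ≠ 0 → par N e t (x, y) ∈ properTransform (FF N e t) := by
    intro x y hP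
    by_cases h : Gv N e t ![x, y, 1] = 0
    · have hd : Dense ({x}ᶜ : Set ℂ) := dense_compl_singleton x
      have hx : x ∈ closure ({x}ᶜ : Set ℂ) := hd x
      have hm := map_mem_closure
        ((continuous_par N e t).comp (continuous_id.prodMk (continuous_const (y := y)))) hx
        (t := properTransform (FF N e t)) (by
          intro x' hx'
          apply par_mem_of_ne
          intro h'
          change Gv N e t ![x', y, 1] = 0 at h'
          have h2 : Gv N e t ![x', y, 1] - Gv N e t ![x, y, 1] =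
              (x' - x) * LP (univ : Finset (Fin N)) y 1 ^ 3 := by
            unfold Gv G
            simp
            ring
          rw [h, h', sub_zero] at h2
          have h3 : (x' - x) * LP (univ : Finset (Fin N)) y 1 ^ 3 ≠ 0 :=
            mul_ne_zero (sub_ne_zero.2 hx') (pow_ne_zero _ hP)
          exact h3 h2.symm)
      unfold properTransform at hm ⊢
      rw [closure_closure] at hm
      exact hm
    · exact par_mem_of_ne h
  obtain ⟨x, y⟩ := w
  have hfin := finite_zeros (univ : Finset (Fin N))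
  have hd : Dense ({η : ℂ | LP (univ : Finset (Fin N)) η 1 = 0}ᶜ : Set ℂ) :=
    hfin.countable.dense_compl ℂ
  have hy : y ∈ closure ({η : ℂ | LP (univ : Finset (Fin N)) η 1 = 0}ᶜ : Set ℂ) := hd y
  have hm := map_mem_closure
    ((continuous_par N e t).comp ((continuous_const (y := x)).prodMk continuous_id)) hy
    (t := properTransform (FF N e t)) (by
      intro η hη
      exact hA x η hη)
  unfold properTransform at hm ⊢
  rw [closure_closure] at hm
  exact hm

theorem plane_mem (N e : ℕ) (t : Fin N → ℂ) (v : Fin 3 → ℂ) (hv : v ≠ 0) (h2 : v 2 = 0)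
    (h0 : Gv N e t v = 0) : Projectivization.mk ℂ v hv ∈ exc (FF N e t) := by
  change ((0 : Fin 3 → ℂ), _) ∈ properTransform (FF N e t)
  have hd : Dense ({0}ᶜ : Set ℂ) := dense_compl_singleton 0
  have h3 : (0 : ℂ) ∈ closure ({0}ᶜ : Set ℂ) := hd 0
  have hc : Continuous (fun r : ℂ => ((r • v, Projectivization.mk ℂ v hv) :
      (Fin 3 → ℂ) × Plane)) := by fun_prop
  have hm := map_mem_closure hc h3 (t := {q : (Fin 3 → ℂ) × Plane | ∃ h : q.1 ≠ 0,
      q.1 ∈ zeros (FF N e t) ∧ q.2 = Projectivization.mk ℂ q.1 h}) (by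
    intro r hr
    have ht0 : r ≠ 0 := hr
    refine ⟨smul_ne_zero ht0 hv, ?_, ?_⟩
    · change eval (r • v) (FF N e t) = 0
      rw [eval_FF]
      change Gv N e t (r • v) + (r • v) 2 ^ (3 * N + e + 2) = 0
      have h4 : (r • v) 2 = 0 := by rw [Pi.smul_apply, h2, smul_zero]
      rw [Gv_smul, h0, h4, mul_zero, zero_add]
      exact zero_pow (by omega)
    · rw [Projectivization.mk_eq_mk_iff']
      refine ⟨r⁻¹, ?_⟩
      simp only
      rw [smul_smul, inv_mul_cancel₀ ht0, one_smul])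
  rw [zero_smul] at hm
  exact hm

/-- the exceptional curve is the zero set of the leading form -/
theorem mk_mem_exc {e : ℕ} {t : Fin N → ℂ} (v : Fin 3 → ℂ) (hv : v ≠ 0) :
    Projectivization.mk ℂ v hv ∈ exc (FF N e t) ↔ Gv N e t v = 0 := by
  constructor
  · intro h
    exact (rep_zero_iff (Gv_smul e t) v hv).1 (exc_subset h)
  · intro h
    by_cases hz : v 2 = 0
    · exact plane_mem N e t v hv hz h
    · have h1 : (v 2)⁻¹ • v = ![v 0 / v 2, v 1 / v 2, 1] := by
        ext i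
        fin_cases i
        · simp; ring
        · simp; ring
        · simp [hz]
      have h2 : Projectivization.mk ℂ v hv =
          Projectivization.mk ℂ ![v 0 / v 2, v 1 / v 2, 1] (vec_ne _ _) := by
        rw [Projectivization.mk_eq_mk_iff']
        refine ⟨v 2, ?_⟩
        rw [← h1, smul_smul, mul_inv_cancel₀ hz, one_smul]
      have h3 : Gv N e t ![v 0 / v 2, v 1 / v 2, 1] = 0 := by
        rw [← h1, Gv_smul e t, h, mul_zero]
      have h4 := par_mem (e := e) (t := t) (v 0 / v 2, v 1 / v 2)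
      unfold par at h4
      rw [h3, neg_zero, zero_smul] at h4
      rw [h2]
      exact h4

end Pool.Agent.Hhelper97.TopBlow
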