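import Pool.Agent.Hhelper97.TopBlow.Exc

/-!
The exceptional curve minus a point maps continuously onto `j + 1` points, where `j` is the number of
parameters which are not zero.
-/

set_option autoImplicit false

open Filter Topology Finset MvPolynomial

namespace Pool.Agent.Hhelper97.TopBlow

variable {N : ℕ}

open Classical in
/-- the indices of the parameters which are not zero -/
noncomputable def sp (t : Fin N → ℂ) : Finset (Fin N) := univ.filter (fun i => t i ≠ 0)

theorem mem_sp {t : Fin N → ℂ} {i : Fin N} : i ∈ sp t ↔ t i ≠ 0 := by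
  unfold sp
  simp

theorem lf_eq_zero_iff (i : Fin N) (y z : ℂ) : lf i y z = 0 ↔ y = (((i : ℕ) : ℂ) + 1) * z := by
  unfold lf
  exact sub_eq_zero

theorem LP_eq_zero_iff (A : Finset (Fin N)) (y z : ℂ) :
    LP A y z = 0 ↔ ∃ i ∈ A, lf i y z = 0 := by
  unfold LP
  exact Finset.prod_eq_zero_iff

theorem lf_z_ne {i : Fin N} {y z : ℂ} (hw : ¬ (y = 0 ∧ z = 0)) (h : lf i y z = 0) : z ≠ 0 := by
  intro hz
  rw [lf_eq_zero_iff, hz, mul_zero] at h
  exact hw ⟨h, hz⟩

theorem lf_inj {i i' : Fin N} {y z : ℂ} (hz : z ≠ 0) (h : lf i y z = 0) (h' : lf i' y z = 0) :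
    i = i' := by
  rw [lf_eq_zero_iff] at h h'
  rw [h] at h'
  have h1 := mul_right_cancel₀ hz h'
  have h2 : ((i : ℕ) : ℂ) = ((i' : ℕ) : ℂ) := add_right_cancel h1
  exact Fin.ext (by exact_mod_cast h2)

/-- the numerator of the displacement -/
noncomputable def TJ (t : Fin N → ℂ) (y z : ℂ) : ℂ := ∑ i ∈ sp t, t i * LP ((sp t).erase i) y z

/-- the equation of the graph is `x z ^ e P + U = 0` -/
noncomputable def UU (e : ℕ) (t : Fin N → ℂ) (y z : ℂ) : ℂ :=
  y ^ (1 + e) * LP (sp t) y z + z ^ (2 + e) * TJ t y z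

theorem TJ_smul (t : Fin N → ℂ) (r y z : ℂ) :
    r * TJ t (r * y) (r * z) = r ^ (sp t).card * TJ t y z := by
  unfold TJ
  rw [Finset.mul_sum, Finset.mul_sum]
  refine Finset.sum_congr rfl (fun i hi => ?_)
  rw [LP_smul, Finset.card_erase_of_mem hi]
  have h1 : 1 ≤ (sp t).card := Finset.card_pos.2 ⟨i, hi⟩
  have h2 : r ^ (sp t).card = r * r ^ ((sp t).card - 1) := by
    rw [← pow_succ']; congr 1; omega
  rw [h2]
  ring

theorem UU_smul (e : ℕ) (t : Fin N → ℂ) (r y z : ℂ) :
    UU e t (r * y) (r * z) = r ^ ((sp t).card + 1 + e) * UU e t y z := by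
  unfold UU
  rw [LP_smul]
  have h1 := TJ_smul t r y z
  have e1 : (r * y) ^ (1 + e) * (r ^ (sp t).card * LP (sp t) y z) =
      r ^ ((sp t).card + 1 + e) * (y ^ (1 + e) * LP (sp t) y z) := by
    have : r ^ ((sp t).card + 1 + e) = r ^ (1 + e) * r ^ (sp t).card := by
      rw [← pow_add]; congr 1; ring
    rw [this]
    ring
  have e2 : (r * z) ^ (2 + e) * TJ t (r * y) (r * z) =
      r ^ ((sp t).card + 1 + e) * (z ^ (2 + e) * TJ t y z) := by
    have h2 : (r * z) ^ (2 + e) * TJ t (r * y) (r * z) =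
        r ^ (1 + e) * z ^ (2 + e) * (r * TJ t (r * y) (r * z)) := by
      rw [mul_pow, show 2 + e = (1 + e) + 1 by ring, pow_succ r]
      ring
    have : r ^ ((sp t).card + 1 + e) = r ^ (1 + e) * r ^ (sp t).card := by
      rw [← pow_add]; congr 1; ring
    rw [h2, h1, this]
    ring
  rw [e1, e2]
  ring

theorem LP_sp_split (t : Fin N → ℂ) (y z : ℂ) :
    LP (univ : Finset (Fin N)) y z = LP (sp t) y z * LP (sp t)ᶜ y z := by
  unfold LP
  rw [Finset.prod_mul_prod_compl]

theorem LP_erase_split (t : Fin N → ℂ) {i : Fin N} (hi : i ∈ sp t) (y z : ℂ) :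
    LP (univ.erase i) y z = LP ((sp t).erase i) y z * LP (sp t)ᶜ y z := by
  unfold LP
  rw [← Finset.prod_union]
  · congr 1
    ext k
    simp only [Finset.mem_erase, Finset.mem_univ, and_true, Finset.mem_union, Finset.mem_compl]
    constructor
    · intro h
      by_cases hk : k ∈ sp t
      · exact Or.inl ⟨h, hk⟩
      · exact Or.inr hk
    · rintro (h | h)
      · exact h.1
      · rintro rfl
        exact h hi
  · rw [Finset.disjoint_left]
    intro k hk hk'
    rw [Finset.mem_compl] at hk'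
    exact hk' (Finset.mem_of_mem_erase hk)

theorem G_factor (e : ℕ) (t : Fin N → ℂ) (x y z : ℂ) : G N e t x y z =
    LP (sp t) y z ^ 2 * LP (sp t)ᶜ y z ^ 3 * (x * z ^ e * LP (sp t) y z + UU e t y z) := by
  have h1 : ∑ i, t i * Hf e i y z =
      LP (sp t) y z ^ 2 * LP (sp t)ᶜ y z ^ 3 * (z ^ (2 + e) * TJ t y z) := by
    have h2 : ∑ i, t i * Hf e i y z = ∑ i ∈ sp t, t i * Hf e i y z := by
      symm
      apply Finset.sum_subset (Finset.subset_univ _)
      intro i _ hi
      rw [mem_sp, not_not] at hi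
      rw [hi, zero_mul]
    rw [h2]
    unfold TJ
    rw [Finset.mul_sum, Finset.mul_sum]
    refine Finset.sum_congr rfl (fun i hi => ?_)
    have h3 : LP (sp t) y z = lf i y z * LP ((sp t).erase i) y z := by
      unfold LP
      exact (Finset.mul_prod_erase (sp t) (fun i => lf i y z) hi).symm
    unfold Hf
    rw [LP_erase_split t hi, h3]
    ring
  unfold G
  rw [h1, LP_sp_split t]
  unfold UU
  ring

theorem TJ_ne {t : Fin N → ℂ} {y z : ℂ} (hz : z ≠ 0) (h : LP (sp t) y z = 0) : TJ t y z ≠ 0 := by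
  obtain ⟨i, hi, h1⟩ := (LP_eq_zero_iff _ _ _).1 h
  have h2 : TJ t y z = t i * LP ((sp t).erase i) y z := by
    unfold TJ
    apply Finset.sum_eq_single_of_mem i hi
    intro k _ hk
    have : LP ((sp t).erase k) y z = 0 := by
      rw [LP_eq_zero_iff]
      exact ⟨i, Finset.mem_erase.2 ⟨hk.symm, hi⟩, h1⟩
    rw [this, mul_zero]
  rw [h2]
  apply mul_ne_zero (mem_sp.1 hi)
  intro h3
  obtain ⟨k, hk, h4⟩ := (LP_eq_zero_iff _ _ _).1 h3
  exact (Finset.mem_erase.1 hk).1 (lf_inj hz h4 h1)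

theorem UU_ne {e : ℕ} {t : Fin N → ℂ} {y z : ℂ} (hz : z ≠ 0) (h : LP (sp t) y z = 0) :
    UU e t y z ≠ 0 := by
  unfold UU
  rw [h, mul_zero, zero_add]
  exact mul_ne_zero (pow_ne_zero _ hz) (TJ_ne hz h)

theorem continuous_UU (e : ℕ) (t : Fin N → ℂ) : Continuous (fun w : ℂ × ℂ => UU e t w.1 w.2) := by
  unfold UU TJ LP lf
  fun_prop

/-- the common point of all lines of the exceptional curve -/
noncomputable def cpt : Plane := Projectivization.mk ℂ ![1, 0, 0] (by
  intro h
  have := congrFun h 0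
  simp at this)

theorem G_line {e : ℕ} {t : Fin N → ℂ} {x y z : ℂ}
    (h : LP (univ : Finset (Fin N)) y z = 0) : G N e t x y z = 0 := by
  unfold G
  rw [h]
  simp only [Hf_zero_of_LP _ h]
  simp

theorem eq_cpt {ℓ : Plane} (hw : ℓ.rep 1 = 0 ∧ ℓ.rep 2 = 0) : ℓ = cpt := by
  rw [← ℓ.mk_rep]
  unfold cpt
  rw [Projectivization.mk_eq_mk_iff']
  refine ⟨ℓ.rep 0, ?_⟩
  ext i
  fin_cases i
  · simp
  · simp [hw.1]
  · simp [hw.2]

theorem cpt_mem {e : ℕ} (h : 1 ≤ N + e) (t : Fin N → ℂ) : cpt ∈ exc (FF N e t) := by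
  unfold cpt
  apply plane_mem
  · simp
  · unfold Gv G
    simp only [Matrix.cons_val_zero, Matrix.cons_val_one, Matrix.cons_val, LP_zero, Hf_zero]
    by_cases he : e = 0
    · have hN : N ≠ 0 := by omega
      simp [hN]
    · simp [he]

theorem mk_ne_cpt {v : Fin 3 → ℂ} (hv : v ≠ 0) (h2 : v 2 ≠ 0) :
    (Projectivization.mk ℂ v hv : Plane) ≠ cpt := by
  intro h
  unfold cpt at h
  rw [Projectivization.mk_eq_mk_iff'] at h
  obtain ⟨a, ha⟩ := h
  apply h2
  rw [← ha]
  simp

theorem continuousOn_of_fibres {X : Type} [TopologicalSpace X] {n : ℕ} {f : X → Fin n}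
    {s : Set X} (C : Fin n → Set X) (hC : ∀ a, IsClosed (C a))
    (h : ∀ x ∈ s, ∀ a, f x = a ↔ x ∈ C a) : ContinuousOn f s := by
  rw [continuousOn_iff_isClosed]
  intro t _
  refine ⟨⋃ a ∈ t, C a, (Set.toFinite t).isClosed_biUnion (fun a _ => hC a), ?_⟩
  ext x
  constructor
  · rintro ⟨h1, h2⟩
    refine ⟨?_, h2⟩
    rw [Set.mem_iUnion₂]
    exact ⟨f x, h1, (h x h2 _).1 rfl⟩
  · rintro ⟨h1, h2⟩
    refine ⟨?_, h2⟩
    rw [Set.mem_iUnion₂] at h1
    obtain ⟨a, ha, hx⟩ := h1
    have := (h x h2 a).2 hx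
    change f x ∈ t
    rw [this]
    exact ha

/-- numbering of the support of the parameter -/
noncomputable def ro (t : Fin N → ℂ) (k : Fin (sp t).card) : Fin N := ((sp t).equivFin.symm k).1

theorem ro_mem (t : Fin N → ℂ) (k : Fin (sp t).card) : ro t k ∈ sp t :=
  ((sp t).equivFin.symm k).2

theorem ro_injective (t : Fin N → ℂ) : Function.Injective (ro t) := by
  intro k k' h
  exact (sp t).equivFin.symm.injective (Subtype.ext h)

theorem ro_surj (t : Fin N → ℂ) {i : Fin N} (hi : i ∈ sp t) : ∃ k, ro t k = i := by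
  refine ⟨(sp t).equivFin ⟨i, hi⟩, ?_⟩
  unfold ro
  rw [Equiv.symm_apply_apply]

open Classical in
/-- the number of the line of a point of the exceptional curve, the last number for all other
points -/
noncomputable def idx (t : Fin N → ℂ) (ℓ : Plane) : Fin ((sp t).card + 1) :=
  if h : ∃ k : Fin (sp t).card, lf (ro t k) (ℓ.rep 1) (ℓ.rep 2) = 0 then
    (Classical.choose h).castSucc
  else Fin.last _

theorem idx_castSucc {t : Fin N → ℂ} {ℓ : Plane} (hw : ¬ (ℓ.rep 1 = 0 ∧ ℓ.rep 2 = 0))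
    (k : Fin (sp t).card) :
    idx t ℓ = k.castSucc ↔ lf (ro t k) (ℓ.rep 1) (ℓ.rep 2) = 0 := by
  unfold idx
  by_cases h : ∃ k : Fin (sp t).card, lf (ro t k) (ℓ.rep 1) (ℓ.rep 2) = 0
  · rw [dif_pos h]
    have hs := Classical.choose_spec h
    constructor
    · intro h1
      rw [Fin.castSucc_inj] at h1
      rw [← h1]
      exact hs
    · intro h1
      rw [Fin.castSucc_inj]
      exact ro_injective t (lf_inj (lf_z_ne hw hs) hs h1)
  · rw [dif_neg h]
    constructor
    · intro h1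
      exact absurd h1.symm (Fin.castSucc_ne_last k)
    · intro h1
      exact absurd ⟨k, h1⟩ h

theorem idx_last {t : Fin N → ℂ} {ℓ : Plane} :
    idx t ℓ = Fin.last _ ↔ LP (sp t) (ℓ.rep 1) (ℓ.rep 2) ≠ 0 := by
  unfold idx
  by_cases h : ∃ k : Fin (sp t).card, lf (ro t k) (ℓ.rep 1) (ℓ.rep 2) = 0
  · rw [dif_pos h]
    obtain ⟨k, hk⟩ := h
    constructor
    · intro h1
      exact absurd h1 (Fin.castSucc_ne_last _)
    · intro h1
      exact absurd ((LP_eq_zero_iff _ _ _).2 ⟨ro t k, ro_mem t k, hk⟩) h1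
  · rw [dif_neg h]
    constructor
    · intro _ h1
      obtain ⟨i, hi, h2⟩ := (LP_eq_zero_iff _ _ _).1 h1
      obtain ⟨k, rfl⟩ := ro_surj t hi
      exact h ⟨k, h2⟩
    · intro _
      rfl

/-- the equation of the other points -/
noncomputable def Hl (e : ℕ) (t : Fin N → ℂ) (v : Fin 3 → ℂ) : ℂ :=
  LP (sp t)ᶜ (v 1) (v 2) * (v 0 * v 2 ^ e * LP (sp t) (v 1) (v 2) + UU e t (v 1) (v 2))

theorem Hl_smul (e : ℕ) (t : Fin N → ℂ) (r : ℂ) (v : Fin 3 → ℂ) :
    Hl e t (r • v) = r ^ ((sp t)ᶜ.card + ((sp t).card + 1 + e)) * Hl e t v := by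
  unfold Hl
  simp only [Pi.smul_apply, smul_eq_mul, LP_smul, UU_smul]
  rw [pow_add r ((sp t)ᶜ.card)]
  have e1 : r ^ ((sp t).card + 1 + e) = r * r ^ e * r ^ (sp t).card := by
    rw [← pow_succ', ← pow_add]; congr 1; ring
  have key : r * v 0 * (r * v 2) ^ e * (r ^ (sp t).card * LP (sp t) (v 1) (v 2)) =
      r ^ ((sp t).card + 1 + e) * (v 0 * v 2 ^ e * LP (sp t) (v 1) (v 2)) := by
    rw [e1]
    ring
  rw [key]
  ring

theorem continuous_Hl (e : ℕ) (t : Fin N → ℂ) : Continuous (Hl e t) := by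
  unfold Hl
  have h1 := continuous_LP' (sp t)
  have h2 := continuous_LP' (sp t)ᶜ
  have h3 : Continuous (fun v : Fin 3 → ℂ => UU e t (v 1) (v 2)) := by
    unfold UU TJ LP lf
    fun_prop
  fun_prop

theorem lower {e : ℕ} (hNe : 1 ≤ N + e) (t : Fin N → ℂ) : ∃ p ∈ exc (FF N e t),
    ∃ f : Plane → Fin ((sp t).card + 1),
      ContinuousOn f (exc (FF N e t) \ {p}) ∧ ∀ a, ∃ x ∈ exc (FF N e t) \ {p}, f x = a := by
  refine ⟨cpt, cpt_mem hNe t, idx t, ?_, ?_⟩
  · apply continuousOn_of_fibres (Fin.lastCases {ℓ : Plane | Hl e t ℓ.rep = 0}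
      (fun k => {ℓ : Plane | lf (ro t k) (ℓ.rep 1) (ℓ.rep 2) = 0}))
    · intro a
      refine Fin.lastCases ?_ (fun k => ?_) a
      · rw [Fin.lastCases_last]
        exact isClosed_rep (Hl_smul e t) (continuous_Hl e t)
      · rw [Fin.lastCases_castSucc]
        apply isClosed_rep (H := fun v : Fin 3 → ℂ => lf (ro t k) (v 1) (v 2)) (k := 1)
        · intro r v
          simp only [Pi.smul_apply, smul_eq_mul, lf_smul, pow_one]
        · unfold lf
          fun_prop
    · rintro ℓ ⟨hℓ, hne⟩ a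
      have hw : ¬ (ℓ.rep 1 = 0 ∧ ℓ.rep 2 = 0) := fun hw => hne (eq_cpt hw)
      have hG := exc_subset hℓ
      unfold Gv at hG
      rw [G_factor] at hG
      refine Fin.lastCases ?_ (fun k => ?_) a
      · rw [Fin.lastCases_last, idx_last]
        change _ ↔ Hl e t ℓ.rep = 0
        unfold Hl
        constructor
        · intro hP
          rcases mul_eq_zero.1 hG with h | h
          · have h1 := (mul_eq_zero.1 h).resolve_left (pow_ne_zero _ hP)
            have h2 := pow_eq_zero_iff (three_ne_zero) |>.1 h1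
            rw [h2, zero_mul]
          · rw [h, mul_zero]
        · intro hH hP
          have hz : ℓ.rep 2 ≠ 0 := by
            obtain ⟨i, hi, h2⟩ := (LP_eq_zero_iff _ _ _).1 hP
            exact lf_z_ne hw h2
          have hU := UU_ne (e := e) hz hP
          rw [hP, mul_zero, zero_add] at hH
          have h1 := (mul_eq_zero.1 hH).resolve_right hU
          obtain ⟨i, hi, h2⟩ := (LP_eq_zero_iff _ _ _).1 hP
          obtain ⟨i', hi', h3⟩ := (LP_eq_zero_iff _ _ _).1 h1
          have := lf_inj hz h2 h3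
          rw [← this, Finset.mem_compl] at hi'
          exact hi' hi
      · rw [Fin.lastCases_castSucc, idx_castSucc hw]
        rfl
  · intro a
    refine Fin.lastCases ?_ (fun k => ?_) a
    · have hP : LP (sp t) 0 1 ≠ 0 := by
        intro h
        obtain ⟨i, _, h2⟩ := (LP_eq_zero_iff _ _ _).1 h
        rw [lf_eq_zero_iff, mul_one] at h2
        exact Nat.cast_add_one_ne_zero (R := ℂ) (i : ℕ) h2.symm
      obtain ⟨x, hx⟩ : ∃ x, x = -(UU e t 0 1 / LP (sp t) 0 1) := ⟨_, rfl⟩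
      refine ⟨Projectivization.mk ℂ ![x, 0, 1] (vec_ne _ _), ⟨?_, ?_⟩, ?_⟩
      · rw [mk_mem_exc]
        unfold Gv
        rw [G_factor]
        have : x * LP (sp t) 0 1 + UU e t 0 1 = 0 := by
          rw [hx]
          field_simp
          ring
        simp [this]
      · exact mk_ne_cpt _ (by simp)
      · rw [idx_last]
        intro h
        have h1 := (rep_zero_iff (H := fun v : Fin 3 → ℂ => LP (sp t) (v 1) (v 2))
          (k := (sp t).card) (by
            intro r v
            simp only [Pi.smul_apply, smul_eq_mul]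
            exact LP_smul _ _ _ _) ![x, 0, 1] (vec_ne _ _)).1 h
        simp at h1
        exact hP h1
    · have h0 : lf (ro t k) ((((ro t k : Fin N) : ℕ) : ℂ) + 1) 1 = 0 := by
        rw [lf_eq_zero_iff, mul_one]
      refine ⟨Projectivization.mk ℂ ![0, (((ro t k : Fin N) : ℕ) : ℂ) + 1, 1] (vec_ne _ _),
        ⟨?_, ?_⟩, ?_⟩
      · rw [mk_mem_exc]
        unfold Gv
        apply G_line
        rw [LP_eq_zero_iff]
        exact ⟨ro t k, Finset.mem_univ _, by simpa using h0⟩
      · exact mk_ne_cpt _ (by simp)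
      · have hz : (Projectivization.mk ℂ ![0, (((ro t k : Fin N) : ℕ) : ℂ) + 1, 1]
            (vec_ne _ _)).rep 2 ≠ 0 := by
          intro h
          have h1 := (rep_zero_iff (H := fun v : Fin 3 → ℂ => v 2) (k := 1) (by
            intro r v
            simp) ![0, (((ro t k : Fin N) : ℕ) : ℂ) + 1, 1] (vec_ne _ _)).1 h
          simp at h1
        rw [idx_castSucc (fun hw => hz hw.2)]
        exact (rep_zero_iff (H := fun v : Fin 3 → ℂ => lf (ro t k) (v 1) (v 2)) (k := 1) (by
            intro r v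
            simp only [Pi.smul_apply, smul_eq_mul, lf_smul, pow_one])
            ![0, (((ro t k : Fin N) : ℕ) : ℂ) + 1, 1] (vec_ne _ _)).2 (by simpa using h0)

end Pool.Agent.Hhelper97.TopBlow
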