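import Pool.Agent.Hhelper97.TopBlow.Shear

/-!
The displacement function of the shear which carries the model surface to the surfaces of the family.
-/

set_option autoImplicit false

open Filter Topology Finset

namespace Pool.Agent.Hhelper97.TopBlow

variable {N : ℕ}

/-- the linear form `y - (i + 1) z` -/
noncomputable def lf (i : Fin N) (y z : ℂ) : ℂ := y - (((i : ℕ) : ℂ) + 1) * z

/-- the product of the linear forms `y - (i + 1) z`, `i ∈ A` -/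
noncomputable def LP (A : Finset (Fin N)) (y z : ℂ) : ℂ := ∏ i ∈ A, lf i y z

theorem norm_succ (i : ℕ) : ‖((i : ℂ) + 1)‖ = (i : ℝ) + 1 := by
  have : ((i : ℂ) + 1) = (((i : ℝ) + 1 : ℝ) : ℂ) := by push_cast; rfl
  rw [this, Complex.norm_real, Real.norm_eq_abs, abs_of_nonneg (by positivity)]

theorem lf_ge (i : Fin N) {y z : ℂ} (h : ((N : ℝ) + 1) * ‖z‖ ≤ ‖y‖) : ‖z‖ ≤ ‖lf i y z‖ := by
  unfold lf
  have h1 : ‖(((i : ℕ) : ℂ) + 1) * z‖ = (((i : ℕ) : ℝ) + 1) * ‖z‖ := by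
    rw [norm_mul, norm_succ]
  have h2 := norm_sub_norm_le y ((((i : ℕ) : ℂ) + 1) * z)
  have h3 : (((i : ℕ) : ℝ) + 1) ≤ N := by exact_mod_cast i.2
  have h4 : (((i : ℕ) : ℝ) + 1) * ‖z‖ ≤ N * ‖z‖ := mul_le_mul_of_nonneg_right h3 (norm_nonneg z)
  rw [h1] at h2
  linarith

theorem lf_le (i : Fin N) {y z : ℂ} (h : ‖y‖ ≤ ((N : ℝ) + 1) * ‖z‖) :
    ‖lf i y z‖ ≤ (2 * (N : ℝ) + 1) * ‖z‖ := by
  unfold lf
  have h1 : ‖(((i : ℕ) : ℂ) + 1) * z‖ = (((i : ℕ) : ℝ) + 1) * ‖z‖ := by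
    rw [norm_mul, norm_succ]
  have h2 := norm_sub_le y ((((i : ℕ) : ℂ) + 1) * z)
  have h3 : (((i : ℕ) : ℝ) + 1) ≤ N := by exact_mod_cast i.2
  have h4 : (((i : ℕ) : ℝ) + 1) * ‖z‖ ≤ N * ‖z‖ := mul_le_mul_of_nonneg_right h3 (norm_nonneg z)
  rw [h1] at h2
  linarith

theorem LP_le (A : Finset (Fin N)) {y z : ℂ}
    (h : ‖y‖ ≤ ((N : ℝ) + 1) * ‖z‖) : ‖LP A y z‖ ≤ ((2 * (N : ℝ) + 1) * ‖z‖) ^ A.card := by
  unfold LP
  rw [norm_prod, ← Finset.prod_const]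
  exact Finset.prod_le_prod (fun i _ => norm_nonneg _) (fun i _ => lf_le i h)

theorem continuous_lf (i : Fin N) : Continuous (fun w : ℂ × ℂ => lf i w.1 w.2) := by
  unfold lf
  fun_prop

theorem continuous_LP (A : Finset (Fin N)) : Continuous (fun w : ℂ × ℂ => LP A w.1 w.2) := by
  unfold LP lf
  fun_prop

theorem lf_ne {i : Fin N} {y z : ℂ} (h : LP (univ : Finset (Fin N)) y z ≠ 0) :
    lf i y z ≠ 0 := by
  unfold LP at h
  rw [Finset.prod_ne_zero_iff] at h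
  exact h i (Finset.mem_univ i)

/-- the displacement on the surface -/
noncomputable def sf (w : (ℂ × ℂ) × (Fin N → ℂ)) : ℂ :=
  ∑ i, w.2 i * (w.1.2 ^ 2 / lf i w.1.1 w.1.2)

/-- the size of the parameter -/
noncomputable def Tn (t : Fin N → ℂ) : ℝ := ∑ i, ‖t i‖

theorem Tn_nonneg (t : Fin N → ℂ) : 0 ≤ Tn t := by unfold Tn; positivity

theorem continuous_Tn : Continuous (Tn (N := N)) := by
  unfold Tn
  fun_prop

/-- the pole part of the model surface -/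
noncomputable def Bf (N : ℕ) (w : ℂ × ℂ) : ℂ :=
  w.2 ^ (3 * N + 2) / LP (univ : Finset (Fin N)) w.1 w.2 ^ 3

/-- the model surface is `x = x0 (y, z)` -/
noncomputable def x0 (N e : ℕ) (w : ℂ × ℂ) : ℂ := -(w.1 ^ (1 + e) / w.2 ^ e) - Bf N w

theorem sf_le {w : (ℂ × ℂ) × (Fin N → ℂ)} (hz : w.1.2 ≠ 0)
    (h : ((N : ℝ) + 1) * ‖w.1.2‖ ≤ ‖w.1.1‖) : ‖sf w‖ ≤ Tn w.2 * ‖w.1.2‖ := by
  have hz0 : 0 < ‖w.1.2‖ := norm_pos_iff.2 hz
  unfold sf Tn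
  rw [Finset.sum_mul]
  refine (norm_sum_le _ _).trans (Finset.sum_le_sum (fun i _ => ?_))
  rw [norm_mul]
  apply mul_le_mul_of_nonneg_left _ (norm_nonneg _)
  have h1 := lf_ge i h
  rw [norm_div, norm_pow, div_le_iff₀ (lt_of_lt_of_le hz0 h1), pow_two]
  exact mul_le_mul_of_nonneg_left h1 hz0.le

/-- the constant of the pole estimate -/
noncomputable def Cc (N : ℕ) (T : ℝ) : ℝ := (T * (2 * (N : ℝ) + 1) ^ (N - 1)) ^ 3

theorem Cc_nonneg (N : ℕ) {T : ℝ} (hT : 0 ≤ T) : 0 ≤ Cc N T := by unfold Cc; positivity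

theorem Cc_mono (N : ℕ) {T T' : ℝ} (hT : 0 ≤ T) (h : T ≤ T') : Cc N T ≤ Cc N T' := by
  unfold Cc
  apply pow_le_pow_left₀ (by positivity)
  exact mul_le_mul_of_nonneg_right h (by positivity)

theorem pole_estimate {w : (ℂ × ℂ) × (Fin N → ℂ)} (hz : w.1.2 ≠ 0)
    (hP : LP (univ : Finset (Fin N)) w.1.1 w.1.2 ≠ 0) (h : ‖w.1.1‖ ≤ ((N : ℝ) + 1) * ‖w.1.2‖) :
    ‖sf w‖ ^ 3 ≤ Cc N (Tn w.2) * (‖w.1.2‖ * ‖Bf N w.1‖) := by
  have hz0 : 0 < ‖w.1.2‖ := norm_pos_iff.2 hz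
  have hP0 : 0 < ‖LP (univ : Finset (Fin N)) w.1.1 w.1.2‖ := norm_pos_iff.2 hP
  have h1 : ‖sf w‖ * ‖LP (univ : Finset (Fin N)) w.1.1 w.1.2‖ ≤
      Tn w.2 * (2 * (N : ℝ) + 1) ^ (N - 1) * ‖w.1.2‖ ^ (N + 1) := by
    unfold sf Tn
    rw [← norm_mul, Finset.sum_mul, Finset.sum_mul, Finset.sum_mul]
    refine (norm_sum_le _ _).trans (Finset.sum_le_sum (fun i _ => ?_))
    have hN : 1 ≤ N := Nat.succ_le_of_lt (lt_of_le_of_lt (Nat.zero_le _) i.2)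
    have h2 : w.2 i * (w.1.2 ^ 2 / lf i w.1.1 w.1.2) * LP (univ : Finset (Fin N)) w.1.1 w.1.2 =
        w.2 i * (w.1.2 ^ 2 * LP (univ.erase i) w.1.1 w.1.2) := by
      have h3 : LP (univ : Finset (Fin N)) w.1.1 w.1.2 =
          lf i w.1.1 w.1.2 * LP (univ.erase i) w.1.1 w.1.2 := by
        unfold LP
        exact (Finset.mul_prod_erase univ (fun i => lf i w.1.1 w.1.2) (Finset.mem_univ i)).symm
      have h4 := lf_ne (i := i) hP
      rw [h3]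
      field_simp
    have h3 := LP_le (univ.erase i) h
    rw [Finset.card_erase_of_mem (Finset.mem_univ i), Finset.card_univ, Fintype.card_fin,
      mul_pow] at h3
    rw [h2, norm_mul, norm_mul, norm_pow, mul_assoc]
    apply mul_le_mul_of_nonneg_left _ (norm_nonneg _)
    calc ‖w.1.2‖ ^ 2 * ‖LP (univ.erase i) w.1.1 w.1.2‖
        ≤ ‖w.1.2‖ ^ 2 * ((2 * (N : ℝ) + 1) ^ (N - 1) * ‖w.1.2‖ ^ (N - 1)) :=
          mul_le_mul_of_nonneg_left h3 (by positivity)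
      _ = (2 * (N : ℝ) + 1) ^ (N - 1) * ‖w.1.2‖ ^ (N + 1) := by
          rw [mul_left_comm, ← pow_add]
          congr 2
          omega
  have h5 := pow_le_pow_left₀ (by positivity) h1 3
  have h6 : ‖w.1.2‖ * ‖Bf N w.1‖ * ‖LP (univ : Finset (Fin N)) w.1.1 w.1.2‖ ^ 3 =
      (‖w.1.2‖ ^ (N + 1)) ^ 3 := by
    unfold Bf
    rw [norm_div, norm_pow, norm_pow, mul_assoc, div_mul_cancel₀ _ (by positivity), ← pow_mul,
      ← pow_succ']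
    congr 1
    ring
  rw [mul_pow, mul_pow (Tn w.2 * (2 * (N : ℝ) + 1) ^ (N - 1)), ← h6] at h5
  apply le_of_mul_le_mul_right _ (pow_pos hP0 3)
  calc _ ≤ _ := h5
    _ = _ := by unfold Cc; ring

/-- radius of the cut-off -/
noncomputable def rad (e : ℕ) (w : (ℂ × ℂ) × (Fin N → ℂ)) : ℝ :=
  2 * ‖sf w‖ + ‖x0 N e w.1‖ / 2 + ‖w.1.2‖

open Classical in
/-- the displacement -/
noncomputable def psi (e : ℕ) (q : ℂ × ((ℂ × ℂ) × (Fin N → ℂ))) : ℂ :=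
  if q.2.1.2 * LP (univ : Finset (Fin N)) q.2.1.1 q.2.1.2 ≠ 0 then
    sf q.2 * ((max 0 (1 - ‖q.1 - x0 N e q.2.1‖ / rad e q.2) : ℝ) : ℂ) else 0

theorem rad_pos {e : ℕ} {w : (ℂ × ℂ) × (Fin N → ℂ)} (h : w.1.2 ≠ 0) : 0 < rad e w := by
  have h1 : 0 < ‖w.1.2‖ := norm_pos_iff.2 h
  unfold rad
  positivity

theorem psi_lip {e : ℕ} (x x' : ℂ) (w : (ℂ × ℂ) × (Fin N → ℂ)) :
    ‖psi e (x, w) - psi e (x', w)‖ ≤ (1 / 2) * ‖x - x'‖ := by
  unfold psi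
  simp only
  by_cases h : w.1.2 * LP (univ : Finset (Fin N)) w.1.1 w.1.2 ≠ 0
  · rw [if_pos h, if_pos h, ← mul_sub, ← Complex.ofReal_sub, norm_mul, Complex.norm_real,
      Real.norm_eq_abs]
    have hr := rad_pos (e := e) (left_ne_zero_of_mul h)
    have h1 := abs_max_sub_max_le_abs (1 - ‖x - x0 N e w.1‖ / rad e w)
      (1 - ‖x' - x0 N e w.1‖ / rad e w) 0
    rw [max_comm, max_comm (1 - ‖x' - x0 N e w.1‖ / rad e w) 0] at h1
    have h2 : |(1 - ‖x - x0 N e w.1‖ / rad e w) - (1 - ‖x' - x0 N e w.1‖ / rad e w)| ≤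
        ‖x - x'‖ / rad e w := by
      have h3 : (1 - ‖x - x0 N e w.1‖ / rad e w) - (1 - ‖x' - x0 N e w.1‖ / rad e w) =
          (‖x' - x0 N e w.1‖ - ‖x - x0 N e w.1‖) / rad e w := by ring
      rw [h3, abs_div, abs_of_pos hr]
      apply div_le_div_of_nonneg_right _ hr.le
      have h4 := abs_norm_sub_norm_le (x' - x0 N e w.1) (x - x0 N e w.1)
      have h5 : x' - x0 N e w.1 - (x - x0 N e w.1) = -(x - x') := by ring
      rw [h5, norm_neg] at h4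
      exact h4
    have h6 : ‖sf w‖ ≤ (1 / 2) * rad e w := by
      have := norm_nonneg (x0 N e w.1)
      have := norm_nonneg w.1.2
      unfold rad
      linarith
    calc _ ≤ ‖sf w‖ * (‖x - x'‖ / rad e w) :=
          mul_le_mul_of_nonneg_left (h1.trans h2) (norm_nonneg _)
      _ ≤ (1 / 2) * rad e w * (‖x - x'‖ / rad e w) :=
          mul_le_mul_of_nonneg_right h6 (by positivity)
      _ = (1 / 2) * ‖x - x'‖ := by field_simp
  · rw [if_neg h, if_neg h, sub_zero, norm_zero]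
    positivity

theorem psi_zero {e : ℕ} {q : ℂ × ((ℂ × ℂ) × (Fin N → ℂ))}
    (h : q.2.1.2 * LP (univ : Finset (Fin N)) q.2.1.1 q.2.1.2 = 0) : psi e q = 0 := by
  unfold psi
  rw [if_neg (not_not.2 h)]

theorem psi_at {e : ℕ} {w : (ℂ × ℂ) × (Fin N → ℂ)}
    (h : w.1.2 * LP (univ : Finset (Fin N)) w.1.1 w.1.2 ≠ 0) :
    psi e (x0 N e w.1, w) = sf w := by
  unfold psi
  simp only
  rw [if_pos h]
  simp

theorem norm_psi_le {e : ℕ} (q : ℂ × ((ℂ × ℂ) × (Fin N → ℂ))) : ‖psi e q‖ ≤ ‖sf q.2‖ := by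
  unfold psi
  by_cases h : q.2.1.2 * LP (univ : Finset (Fin N)) q.2.1.1 q.2.1.2 ≠ 0
  · rw [if_pos h, norm_mul, Complex.norm_real, Real.norm_eq_abs]
    have hr := rad_pos (e := e) (w := q.2) (left_ne_zero_of_mul h)
    have h1 : |max 0 (1 - ‖q.1 - x0 N e q.2.1‖ / rad e q.2)| ≤ 1 := by
      rw [abs_of_nonneg (le_max_left _ _)]
      apply max_le zero_le_one
      have : 0 ≤ ‖q.1 - x0 N e q.2.1‖ / rad e q.2 := by positivity
      linarith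
    calc _ ≤ ‖sf q.2‖ * 1 := mul_le_mul_of_nonneg_left h1 (norm_nonneg _)
      _ = _ := mul_one _
  · rw [if_neg h, norm_zero]
    exact norm_nonneg _

/-- where the displacement does not vanish, the model surface is not far -/
theorem x0_le_of_psi_ne {e : ℕ} {q : ℂ × ((ℂ × ℂ) × (Fin N → ℂ))} (hq : psi e q ≠ 0) :
    q.2.1.2 * LP (univ : Finset (Fin N)) q.2.1.1 q.2.1.2 ≠ 0 ∧
      ‖x0 N e q.2.1‖ ≤ 2 * ‖q.1‖ + 4 * ‖sf q.2‖ + 2 * ‖q.2.1.2‖ := by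
  have h : q.2.1.2 * LP (univ : Finset (Fin N)) q.2.1.1 q.2.1.2 ≠ 0 := by
    intro h
    exact hq (psi_zero h)
  refine ⟨h, ?_⟩
  by_contra hcon
  push Not at hcon
  apply hq
  have hr := rad_pos (e := e) (w := q.2) (left_ne_zero_of_mul h)
  unfold psi
  rw [if_pos h]
  have h1 : rad e q.2 ≤ ‖q.1 - x0 N e q.2.1‖ := by
    have h2 := norm_sub_norm_le (x0 N e q.2.1) q.1
    rw [norm_sub_rev] at h2
    unfold rad
    linarith
  have h3 : 1 - ‖q.1 - x0 N e q.2.1‖ / rad e q.2 ≤ 0 := by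
    have : 1 ≤ ‖q.1 - x0 N e q.2.1‖ / rad e q.2 := (one_le_div hr).2 h1
    linarith
  rw [max_eq_left h3]
  simp

/-- the constant of the other summands -/
noncomputable def Mc (N e : ℕ) : ℝ := ((N : ℝ) + 1) ^ (1 + e) + 2

theorem Mc_pos (N e : ℕ) : 0 < Mc N e := by unfold Mc; positivity

theorem Bf_le {e : ℕ} {w : ℂ × ℂ} (hz : w.2 ≠ 0) (h : ‖w.1‖ ≤ ((N : ℝ) + 1) * ‖w.2‖) :
    ‖Bf N w‖ + 2 * ‖w.2‖ ≤ ‖x0 N e w‖ + Mc N e * ‖w.2‖ := by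
  have hz0 : 0 < ‖w.2‖ := norm_pos_iff.2 hz
  have h1 : ‖w.1 ^ (1 + e) / w.2 ^ e‖ ≤ ((N : ℝ) + 1) ^ (1 + e) * ‖w.2‖ := by
    rw [norm_div, norm_pow, norm_pow, div_le_iff₀ (by positivity)]
    have h2 := pow_le_pow_left₀ (norm_nonneg _) h (1 + e)
    rw [mul_pow] at h2
    calc ‖w.1‖ ^ (1 + e) ≤ ((N : ℝ) + 1) ^ (1 + e) * ‖w.2‖ ^ (1 + e) := h2
      _ = ((N : ℝ) + 1) ^ (1 + e) * ‖w.2‖ * ‖w.2‖ ^ e := by
        rw [mul_assoc, ← pow_succ']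
        congr 2
        omega
  have h3 : Bf N w = -(x0 N e w) + -(w.1 ^ (1 + e) / w.2 ^ e) := by
    unfold x0
    ring
  have h4 : ‖Bf N w‖ ≤ ‖x0 N e w‖ + ‖w.1 ^ (1 + e) / w.2 ^ e‖ := by
    calc ‖Bf N w‖ ≤ ‖-(x0 N e w)‖ + ‖-(w.1 ^ (1 + e) / w.2 ^ e)‖ := by
          rw [h3]; exact norm_add_le _ _
      _ = _ := by rw [norm_neg, norm_neg]
  unfold Mc
  linarith

/-- the two constraints on the points where the displacement does not vanish -/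
theorem constraint {e : ℕ} {q : ℂ × ((ℂ × ℂ) × (Fin N → ℂ))} (hq : psi e q ≠ 0)
    (h : ‖q.2.1.1‖ ≤ ((N : ℝ) + 1) * ‖q.2.1.2‖) :
    ‖sf q.2‖ ^ 3 ≤ Cc N (Tn q.2.2) *
      (‖q.2.1.2‖ * (2 * ‖q.1‖ + 4 * ‖sf q.2‖ + Mc N e * ‖q.2.1.2‖)) ∧
    ‖q.2.1.2‖ ^ (3 * N + 2) ≤ (2 * ‖q.1‖ + 4 * ‖sf q.2‖ + Mc N e * ‖q.2.1.2‖) *
      ‖LP (univ : Finset (Fin N)) q.2.1.1 q.2.1.2‖ ^ 3 := by
  obtain ⟨h1, h2⟩ := x0_le_of_psi_ne hq
  have hz := left_ne_zero_of_mul h1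
  have hP := right_ne_zero_of_mul h1
  have h3 := Bf_le (e := e) hz h
  have h4 := pole_estimate hz hP h
  have h5 : ‖Bf N q.2.1‖ ≤ 2 * ‖q.1‖ + 4 * ‖sf q.2‖ + Mc N e * ‖q.2.1.2‖ := by linarith
  constructor
  · refine h4.trans ?_
    exact mul_le_mul_of_nonneg_left (mul_le_mul_of_nonneg_left h5 (norm_nonneg _))
      (Cc_nonneg N (Tn_nonneg _))
  · have h6 : ‖q.2.1.2‖ ^ (3 * N + 2) =
        ‖Bf N q.2.1‖ * ‖LP (univ : Finset (Fin N)) q.2.1.1 q.2.1.2‖ ^ 3 := by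
      unfold Bf
      rw [norm_div, norm_pow, norm_pow, div_mul_cancel₀]
      exact pow_ne_zero _ (norm_ne_zero_iff.2 hP)
    rw [h6]
    exact mul_le_mul_of_nonneg_right h5 (by positivity)

end Pool.Agent.Hhelper97.TopBlow
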