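import Mathlib

/-!
Shears with a contracting displacement are homeomorphisms.
-/

set_option autoImplicit false
set_option linter.unusedSectionVars false

open Filter Topology

namespace Pool.Agent.Hhelper97.TopBlow

variable {Y : Type} [TopologicalSpace Y]

theorem shear_expand {ψ : ℂ × Y → ℂ}
    (hL : ∀ x x' y, ‖ψ (x, y) - ψ (x', y)‖ ≤ (1 / 2) * ‖x - x'‖) (x x' : ℂ) (y : Y) :
    ‖x - x'‖ ≤ 2 * ‖(x - ψ (x, y)) - (x' - ψ (x', y))‖ := by
  have h1 := hL x x' y
  have h2 : ‖x - x'‖ ≤ ‖(x - ψ (x, y)) - (x' - ψ (x', y))‖ + ‖ψ (x, y) - ψ (x', y)‖ := by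
    calc ‖x - x'‖ = ‖((x - ψ (x, y)) - (x' - ψ (x', y))) + (ψ (x, y) - ψ (x', y))‖ := by
          congr 1; ring
      _ ≤ _ := norm_add_le _ _
  linarith

theorem shear_bijective {ψ : ℂ × Y → ℂ}
    (hL : ∀ x x' y, ‖ψ (x, y) - ψ (x', y)‖ ≤ (1 / 2) * ‖x - x'‖) :
    Function.Bijective (fun q : ℂ × Y => ((q.1 - ψ q, q.2) : ℂ × Y)) := by
  constructor
  · rintro ⟨x, y⟩ ⟨x', y'⟩ h
    simp only [Prod.mk.injEq] at h
    obtain ⟨h1, h2⟩ := h
    subst h2
    have h3 := shear_expand hL x x' y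
    rw [h1, sub_self, norm_zero, mul_zero] at h3
    have h4 : x - x' = 0 := norm_le_zero_iff.1 h3
    rw [sub_eq_zero.1 h4]
  · rintro ⟨w, y⟩
    have hc : ContractingWith (1 / 2) (fun x => w + ψ (x, y)) := by
      refine ⟨by norm_num, ?_⟩
      apply LipschitzWith.of_dist_le_mul
      intro x x'
      rw [dist_eq_norm, dist_eq_norm]
      have h := hL x x' y
      have e : w + ψ (x, y) - (w + ψ (x', y)) = ψ (x, y) - ψ (x', y) := by ring
      rw [e]
      simpa using h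
    refine ⟨(ContractingWith.fixedPoint _ hc, y), ?_⟩
    have hf := hc.fixedPoint_isFixedPt
    have hf2 : w + ψ (ContractingWith.fixedPoint _ hc, y) = ContractingWith.fixedPoint _ hc := hf
    simp only [Prod.mk.injEq, and_true]
    linear_combination -hf2

theorem exists_shear {ψ : ℂ × Y → ℂ} (hc : Continuous ψ)
    (hL : ∀ x x' y, ‖ψ (x, y) - ψ (x', y)‖ ≤ (1 / 2) * ‖x - x'‖) :
    ∃ h : (ℂ × Y) ≃ₜ (ℂ × Y), ∀ q, h q = (q.1 - ψ q, q.2) := by
  obtain ⟨e, he⟩ : ∃ e : (ℂ × Y) ≃ (ℂ × Y), ∀ q, e q = (q.1 - ψ q, q.2) :=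
    ⟨Equiv.ofBijective _ (shear_bijective hL), fun q => rfl⟩
  refine ⟨{ toEquiv := e, continuous_toFun := ?_, continuous_invFun := ?_ }, he⟩
  · have : e.toFun = fun q => (q.1 - ψ q, q.2) := funext he
    rw [this]
    fun_prop
  · rw [continuous_iff_continuousAt]
    intro q
    change Tendsto e.symm (𝓝 q) (𝓝 (e.symm q))
    have key : ∀ w : ℂ × Y, w.1 = (e.symm w).1 - ψ ((e.symm w).1, w.2) ∧ w.2 = (e.symm w).2 := by
      intro w
      have h1 := he (e.symm w)
      rw [e.apply_symm_apply] at h1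
      have h2 := congrArg Prod.snd h1
      have h3 := congrArg Prod.fst h1
      simp only at h2 h3
      refine ⟨?_, h2⟩
      rw [h2]
      exact h3
    have hq := key q
    obtain ⟨x, hx⟩ : ∃ x, x = (e.symm q).1 := ⟨_, rfl⟩
    have h2 : Tendsto (fun w => (e.symm w).2) (𝓝 q) (𝓝 (e.symm q).2) := by
      rw [← hq.2]
      have : (fun w => (e.symm w).2) = fun w : ℂ × Y => w.2 := funext (fun w => (key w).2.symm)
      rw [this]
      exact continuous_snd.tendsto q
    have h1 : Tendsto (fun w => (e.symm w).1) (𝓝 q) (𝓝 (e.symm q).1) := by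
      rw [tendsto_iff_norm_sub_tendsto_zero]
      have hb : ∀ w : ℂ × Y, ‖(e.symm w).1 - x‖ ≤ 2 * ‖w.1 - (x - ψ (x, w.2))‖ := by
        intro w
        have h := shear_expand hL (e.symm w).1 x w.2
        rw [← (key w).1] at h
        exact h
      have hlim : Tendsto (fun w : ℂ × Y => 2 * ‖w.1 - (x - ψ (x, w.2))‖) (𝓝 q) (𝓝 0) := by
        have hcont : Continuous (fun w : ℂ × Y => 2 * ‖w.1 - (x - ψ (x, w.2))‖) := by fun_prop
        have h0 : 2 * ‖q.1 - (x - ψ (x, q.2))‖ = 0 := by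
          have h5 : q.1 = x - ψ (x, q.2) := by rw [hx]; exact hq.1
          rw [← h5]
          simp
        have := hcont.tendsto q
        rw [h0] at this
        exact this
      rw [← hx]
      exact squeeze_zero (fun _ => norm_nonneg _) hb hlim
    exact h1.prodMk_nhds h2

end Pool.Agent.Hhelper97.TopBlow
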