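import Pool.Agent.Hhelper97.TopBlow.Cont
import Pool.Agent.Hhelper97.TopBlow.Defs

/-!
The polynomials of the family, their order at the origin, their irreducibility, and the
homeomorphism which trivialises the family of surfaces.
-/

set_option autoImplicit false

open Filter Topology Finset MvPolynomial

namespace Pool.Agent.Hhelper97.TopBlow

variable {N : ℕ}

/-- the product of the linear forms `y - (i + 1) z`, `i ∈ A` -/
noncomputable def PP (A : Finset (Fin N)) : MvPolynomial (Fin 3) ℂ := ∏ i ∈ A, lF i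

/-- the directions of the family -/
noncomputable def HH (e : ℕ) (i : Fin N) : MvPolynomial (Fin 3) ℂ :=
  X 2 ^ (2 + e) * (lF i ^ 2 * PP (univ.erase i) ^ 3)

/-- the leading form -/
noncomputable def GG (N e : ℕ) (t : Fin N → ℂ) : MvPolynomial (Fin 3) ℂ :=
  (X 0 * X 2 ^ e + X 1 ^ (1 + e)) * PP (univ : Finset (Fin N)) ^ 3 +
    ∑ i, C (t i) * HH e i

theorem FF_def (N e : ℕ) (t : Fin N → ℂ) : FF N e t = GG N e t + X 2 ^ (3 * N + e + 2) := by
  unfold FF GG HH PP
  rw [add_comm e 1, add_comm e 2]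
  ring

theorem eval_lF (i : Fin N) (p : Fin 3 → ℂ) : eval p (lF i) = lf i (p 1) (p 2) := by
  unfold lF lf
  simp

theorem eval_PP (A : Finset (Fin N)) (p : Fin 3 → ℂ) : eval p (PP A) = LP A (p 1) (p 2) := by
  unfold PP LP
  rw [map_prod]
  simp only [eval_lF]

/-- the directions of the family as functions -/
noncomputable def Hf (e : ℕ) (i : Fin N) (y z : ℂ) : ℂ :=
  z ^ (2 + e) * (lf i y z ^ 2 * LP (univ.erase i) y z ^ 3)

theorem eval_HH (e : ℕ) (i : Fin N) (p : Fin 3 → ℂ) : eval p (HH e i) = Hf e i (p 1) (p 2) := by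
  unfold HH Hf
  simp only [map_mul, map_pow, eval_X, eval_PP, eval_lF]

/-- the leading form as a function -/
noncomputable def G (N e : ℕ) (t : Fin N → ℂ) (x y z : ℂ) : ℂ :=
  (x * z ^ e + y ^ (1 + e)) * LP (univ : Finset (Fin N)) y z ^ 3 +
    ∑ i, t i * Hf e i y z

theorem eval_GG (N e : ℕ) (t : Fin N → ℂ) (p : Fin 3 → ℂ) :
    eval p (GG N e t) = G N e t (p 0) (p 1) (p 2) := by
  unfold GG G
  simp only [map_add, map_mul, map_pow, eval_X, eval_PP, map_sum, eval_C, eval_HH]

theorem eval_FF (N e : ℕ) (t : Fin N → ℂ) (p : Fin 3 → ℂ) :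
    eval p (FF N e t) = G N e t (p 0) (p 1) (p 2) + p 2 ^ (3 * N + e + 2) := by
  rw [FF_def, map_add, eval_GG, map_pow, eval_X]

theorem lf_zero (i : Fin N) (y : ℂ) : lf i y 0 = y := by
  unfold lf
  simp

theorem LP_zero (A : Finset (Fin N)) (y : ℂ) : LP A y 0 = y ^ A.card := by
  unfold LP
  simp [lf_zero]

theorem LP_univ_eq (i : Fin N) (y z : ℂ) :
    LP (univ : Finset (Fin N)) y z = lf i y z * LP (univ.erase i) y z := by
  unfold LP
  exact (Finset.mul_prod_erase univ (fun i => lf i y z) (Finset.mem_univ i)).symm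

theorem Hf_zero_of_LP {e : ℕ} (i : Fin N) {y z : ℂ}
    (h : LP (univ : Finset (Fin N)) y z = 0) : Hf e i y z = 0 := by
  unfold Hf
  rw [LP_univ_eq i] at h
  rcases mul_eq_zero.1 h with h | h
  · rw [h]; ring
  · rw [h]; ring

theorem Hf_zero (e : ℕ) (i : Fin N) (y : ℂ) : Hf e i y 0 = 0 := by
  unfold Hf
  simp

theorem isHomogeneous_lF (i : Fin N) : (lF i).IsHomogeneous 1 :=
  (isHomogeneous_X ℂ 1).sub (isHomogeneous_C_mul_X _ 2)

theorem isHomogeneous_PP (A : Finset (Fin N)) : (PP A).IsHomogeneous A.card := by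
  unfold PP
  have h := IsHomogeneous.prod A (fun i => lF i) (fun _ => 1) (fun i _ => isHomogeneous_lF i)
  simpa using h

theorem isHomogeneous_HH (e : ℕ) (i : Fin N) : (HH e i).IsHomogeneous (3 * N + e + 1) := by
  unfold HH
  have h1 := isHomogeneous_PP (univ.erase i)
  rw [Finset.card_erase_of_mem (Finset.mem_univ i), Finset.card_univ, Fintype.card_fin] at h1
  have hN : 1 ≤ N := Nat.succ_le_of_lt (lt_of_le_of_lt (Nat.zero_le _) i.2)
  have := ((isHomogeneous_X ℂ (2 : Fin 3)).pow (2 + e)).mul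
    (((isHomogeneous_lF i).pow 2).mul (h1.pow 3))
  convert this using 1
  omega

theorem isHomogeneous_GG (e : ℕ) (t : Fin N → ℂ) : (GG N e t).IsHomogeneous (3 * N + e + 1) := by
  unfold GG
  have h1 := isHomogeneous_PP (univ : Finset (Fin N))
  rw [Finset.card_univ, Fintype.card_fin] at h1
  have h2 : (X 0 * X 2 ^ e + X 1 ^ (1 + e) : MvPolynomial (Fin 3) ℂ).IsHomogeneous (e + 1) := by
    apply IsHomogeneous.add
    · convert (isHomogeneous_X ℂ (0 : Fin 3)).mul ((isHomogeneous_X ℂ (2 : Fin 3)).pow e)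
        using 1
      ring
    · convert (isHomogeneous_X ℂ (1 : Fin 3)).pow (1 + e) using 1
      ring
  apply IsHomogeneous.add
  · convert h2.mul (h1.pow 3) using 1
    ring
  · apply IsHomogeneous.sum
    intro i _
    exact (isHomogeneous_HH e i).C_mul (t i)

theorem GG_ne_zero (N e : ℕ) (t : Fin N → ℂ) : GG N e t ≠ 0 := by
  intro h
  have h1 : eval ![0, 1, 0] (GG N e t) = 0 := by rw [h, map_zero]
  rw [eval_GG] at h1
  simp [G, LP_zero, Hf_zero] at h1

theorem order_FF (e : ℕ) (t : Fin N → ℂ) :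
    (∀ k < 3 * N + e + 1, homogeneousComponent k (FF N e t) = 0) ∧
      homogeneousComponent (3 * N + e + 1) (FF N e t) ≠ 0 := by
  have h1 : ∀ k, homogeneousComponent k (GG N e t) = if k = 3 * N + e + 1 then GG N e t else 0 :=
    fun k => homogeneousComponent_of_mem (isHomogeneous_GG e t)
  have h2 : ∀ k, homogeneousComponent k (X 2 ^ (3 * N + e + 2) : MvPolynomial (Fin 3) ℂ) =
      if k = 3 * N + e + 2 then X 2 ^ (3 * N + e + 2) else 0 :=
    fun k => homogeneousComponent_of_mem (isHomogeneous_X_pow 2 _)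
  constructor
  · intro k hk
    rw [FF_def, map_add, h1, h2, if_neg (by omega), if_neg (by omega), add_zero]
  · rw [FF_def, map_add, h1, h2, if_pos rfl, if_neg (by omega), add_zero]
    exact GG_ne_zero N e t

/-! ### Irreducibility and smoothness off the axis -/

theorem pd_lF (i : Fin N) : pderiv 0 (lF i) = 0 := by
  unfold lF
  rw [map_sub, pderiv_C_mul, pderiv_X_of_ne (by decide), pderiv_X_of_ne (by decide)]
  simp

theorem pd_PP (A : Finset (Fin N)) : pderiv 0 (PP A) = 0 := by
  classical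
  unfold PP
  induction A using Finset.induction_on with
  | empty => simp
  | insert a s ha ih => rw [Finset.prod_insert ha, Derivation.leibniz, ih, pd_lF]; simp

theorem pd_X {k : Fin 3} (hk : k ≠ 0) : pderiv 0 (X k : MvPolynomial (Fin 3) ℂ) = 0 :=
  pderiv_X_of_ne hk

theorem pd_HH (e : ℕ) (i : Fin N) : pderiv 0 (HH e i) = 0 := by
  unfold HH
  simp only [Derivation.leibniz, Derivation.leibniz_pow, pd_lF, pd_PP,
    pd_X (k := 2) (by decide), smul_zero, add_zero]

theorem pd_sum (e : ℕ) (t : Fin N → ℂ) :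
    pderiv 0 (∑ i, C (t i) * HH e i : MvPolynomial (Fin 3) ℂ) = 0 := by
  rw [map_sum]
  apply Finset.sum_eq_zero
  intro i _
  rw [pderiv_C_mul, pd_HH, mul_zero]

theorem pd_FF (e : ℕ) (t : Fin N → ℂ) :
    pderiv 0 (FF N e t) = X 2 ^ e * PP (univ : Finset (Fin N)) ^ 3 := by
  rw [FF_def]
  unfold GG
  rw [map_add, map_add, pd_sum]
  simp only [map_add, Derivation.leibniz, Derivation.leibniz_pow, pd_PP,
    pd_X (k := 1) (by decide), pd_X (k := 2) (by decide), add_zero,
    pderiv_X_self, smul_eq_mul, mul_one]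
  ring

theorem not_mem_vars_of_pd {F : MvPolynomial (Fin 3) ℂ} (h : pderiv 0 F = 0) : (0 : Fin 3) ∉ F.vars := by
  classical
  intro hm
  rw [mem_vars_iff_mem_support] at hm
  obtain ⟨d, hd, h0⟩ := hm
  have hd0 : d 0 ≠ 0 := by
    rw [Finsupp.mem_support_iff] at h0
    exact h0
  have h1 : coeff (d - Finsupp.single 0 1) (pderiv 0 F) = 0 := by rw [h, coeff_zero]
  rw [coeff_pderiv] at h1
  have h2 : d - Finsupp.single 0 1 + Finsupp.single 0 1 = d := by
    ext k
    by_cases hk : k = 0
    · subst hk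
      simp
      omega
    · simp [Ne.symm hk]
  rw [h2] at h1
  rw [mem_support_iff] at hd
  rcases mul_eq_zero.1 h1 with h3 | h3
  · exact hd h3
  · exact Nat.cast_add_one_ne_zero _ h3

theorem irreducible_lF (i : Fin N) : Irreducible (lF i) := by
  have h := irreducible_mul_X_add (1 : MvPolynomial (Fin 3) ℂ)
    (-(C (((i : ℕ) : ℂ) + 1) * X 2)) 1 one_ne_zero (by simp) (by
      rw [vars_neg]
      intro h
      have h1 := vars_C_mul_X_subset h
      simp at h1) isRelPrime_one_left
  have h2 : (1 : MvPolynomial (Fin 3) ℂ) * X 1 + -(C (((i : ℕ) : ℂ) + 1) * X 2) = lF i := by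
    unfold lF
    ring
  rwa [h2] at h
where
  vars_C_mul_X_subset {c : ℂ} {k : Fin 3} (h : k ∈ (C c * X 2 : MvPolynomial (Fin 3) ℂ).vars) :
      k = 2 := by
    classical
    have h1 := vars_mul (C c) (X 2 : MvPolynomial (Fin 3) ℂ) h
    simpa using h1

/-- the part of the polynomial without `x` -/
noncomputable def Bp (N e : ℕ) (t : Fin N → ℂ) : MvPolynomial (Fin 3) ℂ :=
  X 1 ^ (1 + e) * PP (univ : Finset (Fin N)) ^ 3 + ∑ i, C (t i) * HH e i + X 2 ^ (3 * N + e + 2)

theorem FF_eq (e : ℕ) (t : Fin N → ℂ) :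
    FF N e t = X 2 ^ e * PP (univ : Finset (Fin N)) ^ 3 * X 0 + Bp N e t := by
  rw [FF_def]
  unfold GG Bp
  ring

theorem eval_Bp (e : ℕ) (t : Fin N → ℂ) (p : Fin 3 → ℂ) : eval p (Bp N e t) =
    p 1 ^ (1 + e) * LP (univ : Finset (Fin N)) (p 1) (p 2) ^ 3 + ∑ i, t i * Hf e i (p 1) (p 2) +
      p 2 ^ (3 * N + e + 2) := by
  unfold Bp
  simp only [map_add, map_mul, map_pow, eval_X, eval_PP, map_sum, eval_C, eval_HH]

theorem isRelPrime_of_eval {F H : MvPolynomial (Fin 3) ℂ} (hF : Irreducible F)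
    (p : Fin 3 → ℂ) (h0 : eval p F = 0) (h1 : eval p H ≠ 0) : IsRelPrime F H := by
  rw [hF.isRelPrime_iff_not_dvd]
  rintro ⟨K, hK⟩
  apply h1
  rw [hK, map_mul, h0, zero_mul]

theorem irreducible_FF (e : ℕ) (t : Fin N → ℂ) : Irreducible (FF N e t) := by
  rw [FF_eq]
  apply irreducible_mul_X_add
  · apply mul_ne_zero (pow_ne_zero _ (X_ne_zero _))
    apply pow_ne_zero
    unfold PP
    rw [Finset.prod_ne_zero_iff]
    exact fun i _ => (irreducible_lF i).ne_zero
  · apply not_mem_vars_of_pd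
    simp only [Derivation.leibniz, Derivation.leibniz_pow, pd_PP,
      pd_X (k := 2) (by decide), smul_zero, add_zero]
  · apply not_mem_vars_of_pd
    unfold Bp
    rw [map_add, map_add, pd_sum]
    simp only [Derivation.leibniz, Derivation.leibniz_pow, pd_PP,
      pd_X (k := 1) (by decide), pd_X (k := 2) (by decide), smul_zero, add_zero]
  · apply IsRelPrime.mul_left
    · apply IsRelPrime.pow_left
      apply isRelPrime_of_eval (MvPolynomial.X_prime (R := ℂ) (i := (2 : Fin 3))).irreducible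
        ![0, 1, 0]
      · simp
      · rw [eval_Bp]
        simp [LP_zero, Hf_zero]
    · apply IsRelPrime.pow_left
      unfold PP
      apply IsRelPrime.prod_left
      intro i _
      have h0 : LP (univ : Finset (Fin N)) (((i : ℕ) : ℂ) + 1) 1 = 0 := by
        rw [LP_univ_eq i]
        unfold lf
        ring
      apply isRelPrime_of_eval (irreducible_lF i) ![0, ((i : ℕ) : ℂ) + 1, 1]
      · rw [eval_lF]
        unfold lf
        simp
      · rw [eval_Bp]
        simp only [Matrix.cons_val_one, Matrix.cons_val_zero, Matrix.cons_val, h0,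
          Hf_zero_of_LP _ h0]
        simp

/-! ### The surfaces as graphs -/

theorem mem_zeros {e : ℕ} (t : Fin N → ℂ) (p : Fin 3 → ℂ) : p ∈ zeros (FF N e t) ↔
    (p 2 * LP (univ : Finset (Fin N)) (p 1) (p 2) ≠ 0 ∧
      p 0 = x0 N e (p 1, p 2) - sf ((p 1, p 2), t)) ∨
      (p 2 = 0 ∧ (p 0 * 0 ^ e + p 1 ^ (1 + e)) * (p 1 ^ N) ^ 3 = 0) := by
  unfold zeros
  rw [Set.mem_ofPred_eq, eval_FF]
  by_cases hz : p 2 = 0
  · rw [hz]
    unfold G
    rw [LP_zero, Finset.card_univ, Fintype.card_fin]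
    have h0 : (0 : ℂ) ^ (3 * N + e + 2) = 0 := zero_pow (by omega)
    simp only [Hf_zero, mul_zero, Finset.sum_const_zero, add_zero, h0, zero_mul, ne_eq,
      not_true_eq_false, false_and, false_or, true_and]
  · by_cases hP : LP (univ : Finset (Fin N)) (p 1) (p 2) = 0
    · unfold G
      rw [hP]
      simp only [Hf_zero_of_LP _ hP]
      simp [hz]
    · have key : G N e t (p 0) (p 1) (p 2) + p 2 ^ (3 * N + e + 2) =
          (p 2 ^ e * LP (univ : Finset (Fin N)) (p 1) (p 2) ^ 3) *
            (p 0 - (x0 N e (p 1, p 2) - sf ((p 1, p 2), t))) := by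
        have k1 : ∑ i, t i * Hf e i (p 1) (p 2) =
            (p 2 ^ e * LP (univ : Finset (Fin N)) (p 1) (p 2) ^ 3) *
              sf ((p 1, p 2), t) := by
          unfold sf
          rw [Finset.mul_sum]
          refine Finset.sum_congr rfl (fun i _ => ?_)
          have h1 := lf_ne (i := i) hP
          have h2 := LP_univ_eq i (p 1) (p 2)
          unfold Hf
          simp only
          rw [h2]
          have e3 : p 2 ^ (2 + e) = p 2 ^ e * p 2 ^ 2 := by
            rw [← pow_add]; congr 1; omega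
          rw [e3]
          field_simp
        unfold G
        rw [k1]
        unfold x0 Bf
        simp only
        have e1 : p 2 ^ (3 * N + e + 2) = p 2 ^ e * p 2 ^ (3 * N + 2) := by
          rw [← pow_add]; congr 1; omega
        rw [e1]
        field_simp
        ring
      rw [key]
      constructor
      · intro h
        left
        refine ⟨mul_ne_zero hz hP, ?_⟩
        have h2 : p 2 ^ e * LP (univ : Finset (Fin N)) (p 1) (p 2) ^ 3 ≠ 0 :=
          mul_ne_zero (pow_ne_zero _ hz) (pow_ne_zero _ hP)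
        exact sub_eq_zero.1 ((mul_eq_zero.1 h).resolve_left h2)
      · rintro (⟨_, h⟩ | ⟨h, _⟩)
        · rw [h, sub_self, mul_zero]
        · exact absurd h hz

/-- the surfaces are smooth off the axis -/
theorem smooth_off_axis {e : ℕ} (t : Fin N → ℂ) (p : Fin 3 → ℂ) (hp : p ∈ zeros (FF N e t))
    (h : p 1 ≠ 0 ∨ p 2 ≠ 0) : eval p (pderiv 0 (FF N e t)) ≠ 0 := by
  rw [pd_FF, map_mul, map_pow, map_pow, eval_X, eval_PP]
  rcases (mem_zeros t p).1 hp with ⟨h1, _⟩ | ⟨h1, h2⟩
  · exact mul_ne_zero (pow_ne_zero _ (left_ne_zero_of_mul h1))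
      (pow_ne_zero _ (right_ne_zero_of_mul h1))
  · rcases h with h | h
    · rw [h1, LP_zero, Finset.card_univ, Fintype.card_fin]
      have h3 := (mul_eq_zero.1 h2).resolve_right (pow_ne_zero _ (pow_ne_zero _ h))
      by_cases he : e = 0
      · subst he
        rw [pow_zero, one_mul]
        exact pow_ne_zero _ (pow_ne_zero _ h)
      · rw [zero_pow he, mul_zero, zero_add] at h3
        exact absurd h3 (pow_ne_zero _ h)
    · exact absurd h1 h

/-! ### The trivialisation -/

/-- complex three-space times the parameter space -/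
def E3 (N : ℕ) : ((Fin 3 → ℂ) × (Fin N → ℂ)) ≃ₜ ℂ × ((ℂ × ℂ) × (Fin N → ℂ)) where
  toFun p := (p.1 0, ((p.1 1, p.1 2), p.2))
  invFun q := (![q.1, q.2.1.1, q.2.1.2], q.2.2)
  left_inv p := by
    ext i
    · fin_cases i <;> rfl
    · rfl
  right_inv q := rfl
  continuous_toFun := by fun_prop
  continuous_invFun := by
    apply Continuous.prodMk
    · apply continuous_pi
      intro i
      fin_cases i
      · exact continuous_fst
      · exact continuous_fst.comp (continuous_fst.comp continuous_snd)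
      · exact continuous_snd.comp (continuous_fst.comp continuous_snd)
    · exact continuous_snd.comp continuous_snd

theorem sf_param_zero (w : ℂ × ℂ) : sf (w, (0 : Fin N → ℂ)) = 0 := by
  unfold sf
  simp

/-- the family is topologically trivial over the parameter space -/
theorem exists_trivialisation (N e : ℕ) :
    ∃ Θ : ((Fin 3 → ℂ) × (Fin N → ℂ)) ≃ₜ ((Fin 3 → ℂ) × (Fin N → ℂ)),
      (∀ p t, (Θ (p, t)).2 = t ∧ (Θ (p, t)).1 1 = p 1 ∧ (Θ (p, t)).1 2 = p 2) ∧
      (∀ p t, p 2 = 0 → Θ (p, t) = (p, t)) ∧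
      (∀ p t, p ∈ zeros (FF N e 0) ↔ (Θ (p, t)).1 ∈ zeros (FF N e t)) := by
  obtain ⟨g, hg⟩ := exists_shear (continuous_psi (N := N) (e := e)) (fun x x' w => psi_lip x x' w)
  have hΘ : ∀ p t, ((E3 N).trans (g.trans (E3 N).symm)) (p, t) =
      (![p 0 - psi e (p 0, ((p 1, p 2), t)), p 1, p 2], t) := by
    intro p t
    change (E3 N).symm (g ((p 0, ((p 1, p 2), t)))) = _
    rw [hg]
    rfl
  refine ⟨(E3 N).trans (g.trans (E3 N).symm), ?_, ?_, ?_⟩
  · intro p t
    rw [hΘ]
    exact ⟨rfl, rfl, rfl⟩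
  · intro p t hp
    rw [hΘ, psi_zero (by simp [hp])]
    refine Prod.ext ?_ rfl
    ext i
    fin_cases i
    · simp
    · rfl
    · rfl
  · intro p t
    rw [hΘ, mem_zeros, mem_zeros, sf_param_zero, sub_zero]
    simp only [Matrix.cons_val_zero, Matrix.cons_val_one, Matrix.cons_val]
    constructor
    · rintro (⟨h1, h2⟩ | ⟨h1, h2⟩)
      · left
        refine ⟨h1, ?_⟩
        have h3 := psi_at (e := e) (w := ((p 1, p 2), t)) h1
        simp only at h3
        rw [h2, h3]
      · right
        rw [psi_zero (by simp [h1]), sub_zero]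
        exact ⟨h1, h2⟩
    · rintro (⟨h1, h2⟩ | ⟨h1, h2⟩)
      · left
        refine ⟨h1, ?_⟩
        have h3 := psi_at (e := e) (w := ((p 1, p 2), t)) h1
        simp only at h3
        have h4 : g (p 0, ((p 1, p 2), t)) = g (x0 N e (p 1, p 2), ((p 1, p 2), t)) := by
          rw [hg, hg]
          simp only
          rw [h2, h3]
        exact congrArg Prod.fst (g.injective h4)
      · right
        rw [psi_zero (by simp [h1]), sub_zero] at h2
        exact ⟨h1, h2⟩

end Pool.Agent.Hhelper97.TopBlow
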