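import Pool.Agent.Hhelper97.TopBlow.Lower

/-!
The exceptional curve minus any point has at most `j + 1` pieces, where `j` is the number of
parameters which are not zero.
-/

set_option autoImplicit false

open Filter Topology Finset MvPolynomial

namespace Pool.Agent.Hhelper97.TopBlow

variable {N : ℕ}

theorem arc_preconnected {u v : ℂ → Plane} (hu : Continuous u) (hv : Continuous v)
    (huv : ∀ r, r ≠ 0 → v r = u r⁻¹) (p : Plane) (hf : (u ⁻¹' {p}).Finite) :
    IsPreconnected ((Set.range u ∪ Set.range v) \ {p}) := by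
  have hfv : (v ⁻¹' {p}).Finite := by
    apply Set.Finite.subset ((hf.image (fun r : ℂ => r⁻¹)).union (Set.finite_singleton 0))
    intro r hr
    by_cases h : r = 0
    · right; exact h
    · left
      refine ⟨r⁻¹, ?_, inv_inv r⟩
      change u r⁻¹ = p
      rw [← huv r h]
      exact hr
  have e : (Set.range u ∪ Set.range v) \ {p} = u '' (u ⁻¹' {p})ᶜ ∪ v '' (v ⁻¹' {p})ᶜ := by
    ext x
    constructor
    · rintro ⟨⟨r, rfl⟩ | ⟨r, rfl⟩, hx⟩
      · left; exact ⟨r, hx, rfl⟩
      · right; exact ⟨r, hx, rfl⟩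
    · rintro (⟨r, hr, rfl⟩ | ⟨r, hr, rfl⟩)
      · exact ⟨Or.inl ⟨r, rfl⟩, hr⟩
      · exact ⟨Or.inr ⟨r, rfl⟩, hr⟩
  rw [e]
  have hrk : 1 < Module.rank ℝ ℂ := by
    rw [Complex.rank_real_complex]
    exact Nat.one_lt_ofNat
  have h1 : IsPreconnected (u '' (u ⁻¹' {p})ᶜ) :=
    (hf.countable.isConnected_compl_of_one_lt_rank hrk).isPreconnected.image u hu.continuousOn
  have h2 : IsPreconnected (v '' (v ⁻¹' {p})ᶜ) :=
    (hfv.countable.isConnected_compl_of_one_lt_rank hrk).isPreconnected.image v hv.continuousOn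
  obtain ⟨r, hr⟩ : ∃ r : ℂ, r ∉ insert 0 (v ⁻¹' {p}) := (hfv.insert 0).exists_notMem
  have hr0 : r ≠ 0 := fun h => hr (Or.inl h)
  have hrv : v r ≠ p := fun h => hr (Or.inr h)
  refine IsPreconnected.union (v r) ⟨r⁻¹, ?_, (huv r hr0).symm⟩ ⟨r, hrv, rfl⟩ h1 h2
  intro h
  apply hrv
  rw [huv r hr0]
  exact h

/-- the lines -/
noncomputable def lam (i : Fin N) (r : ℂ) : Plane :=
  Projectivization.mk ℂ ![r, ((i : ℕ) : ℂ) + 1, 1] (vec_ne _ _)

/-- the lines near the common point -/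
noncomputable def lam' (i : Fin N) (r : ℂ) : Plane :=
  Projectivization.mk ℂ ![1, (((i : ℕ) : ℂ) + 1) * r, r] (by
    intro h
    have := congrFun h 0
    simp at this)

theorem continuous_vec3 {f g h : ℂ → ℂ} (hf : Continuous f) (hg : Continuous g)
    (hh : Continuous h) : Continuous (fun r : ℂ => (![f r, g r, h r] : Fin 3 → ℂ)) := by
  apply continuous_pi
  intro i
  fin_cases i
  · exact hf
  · exact hg
  · exact hh

theorem continuous_lam (i : Fin N) : Continuous (lam i) :=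
  continuous_mk (continuous_vec3 continuous_id continuous_const continuous_const) _

theorem continuous_lam' (i : Fin N) : Continuous (lam' i) :=
  continuous_mk (continuous_vec3 continuous_const (by fun_prop) continuous_id) _

theorem lam'_eq (i : Fin N) (r : ℂ) (hr : r ≠ 0) : lam' i r = lam i r⁻¹ := by
  unfold lam lam'
  rw [Projectivization.mk_eq_mk_iff']
  refine ⟨r, ?_⟩
  ext k
  fin_cases k
  · simp [hr]
  · simp; ring
  · simp

theorem lam_injective (i : Fin N) : Function.Injective (lam i) := by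
  intro r r' h
  unfold lam at h
  rw [Projectivization.mk_eq_mk_iff'] at h
  obtain ⟨a, ha⟩ := h
  have h0 := congrFun ha 0
  have h2 := congrFun ha 2
  simp at h0 h2
  rw [← h0, h2, one_mul]

/-- the closed line -/
def Lbar (i : Fin N) : Set Plane := Set.range (lam i) ∪ Set.range (lam' i)

theorem Lbar_preconnected (i : Fin N) (p : Plane) : IsPreconnected (Lbar i \ {p}) :=
  arc_preconnected (continuous_lam i) (continuous_lam' i) (lam'_eq i) p
    ((Set.subsingleton_singleton.preimage (lam_injective i)).finite)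

theorem cpt_mem_Lbar (i : Fin N) : cpt ∈ Lbar i := by
  right
  refine ⟨0, ?_⟩
  unfold lam' cpt
  congr 1
  simp

theorem Lbar_subset (e : ℕ) (t : Fin N → ℂ) (i : Fin N) : Lbar i ⊆ exc (FF N e t) := by
  rintro ℓ (⟨r, rfl⟩ | ⟨r, rfl⟩)
  · unfold lam
    rw [mk_mem_exc]
    unfold Gv
    apply G_line
    rw [LP_eq_zero_iff]
    exact ⟨i, Finset.mem_univ i, by rw [lf_eq_zero_iff]; simp⟩
  · unfold lam'
    rw [mk_mem_exc]
    unfold Gv
    apply G_line
    rw [LP_eq_zero_iff]
    exact ⟨i, Finset.mem_univ i, by rw [lf_eq_zero_iff]; simp⟩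

theorem gvec_ne (e : ℕ) (t : Fin N → ℂ) (η : ℂ) : (![-(UU e t η 1),
    η * LP (sp t) η 1, LP (sp t) η 1] : Fin 3 → ℂ) ≠ 0 := by
  intro h
  have h0 := congrFun h 0
  have h2 := congrFun h 2
  simp only [Matrix.cons_val_zero, Matrix.cons_val, Pi.zero_apply] at h0 h2
  exact UU_ne (e := e) one_ne_zero h2 (neg_eq_zero.1 h0)

/-- the graph -/
noncomputable def gam (e : ℕ) (t : Fin N → ℂ) (η : ℂ) : Plane := Projectivization.mk ℂ
  ![-(UU e t η 1), η * LP (sp t) η 1, LP (sp t) η 1] (gvec_ne e t η)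

theorem UU_one_zero (e : ℕ) (t : Fin N → ℂ) : UU e t 1 0 = 1 := by
  unfold UU
  rw [LP_zero]
  simp

theorem gvec'_ne (e : ℕ) (t : Fin N → ℂ) (r : ℂ) : (![-(UU e t 1 r),
    r ^ e * LP (sp t) 1 r, r ^ (1 + e) * LP (sp t) 1 r] : Fin 3 → ℂ) ≠ 0 := by
  intro h
  have h0 := congrFun h 0
  have h1 := congrFun h 1
  simp only [Matrix.cons_val_zero, Matrix.cons_val_one, Pi.zero_apply] at h0 h1
  by_cases hr : r = 0
  · rw [hr, UU_one_zero] at h0
    simp at h0
  · have h2 : LP (sp t) 1 r = 0 := (mul_eq_zero.1 h1).resolve_left (pow_ne_zero _ hr)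
    exact UU_ne (e := e) hr h2 (neg_eq_zero.1 h0)

/-- the graph near the common point -/
noncomputable def gam' (e : ℕ) (t : Fin N → ℂ) (r : ℂ) : Plane := Projectivization.mk ℂ
  ![-(UU e t 1 r), r ^ e * LP (sp t) 1 r, r ^ (1 + e) * LP (sp t) 1 r] (gvec'_ne e t r)

theorem continuous_gam (e : ℕ) (t : Fin N → ℂ) : Continuous (gam e t) := by
  have h : Continuous (fun η : ℂ => LP (sp t) η 1) :=
    (continuous_LP (sp t)).comp (continuous_id.prodMk continuous_const)
  have h2 : Continuous (fun η : ℂ => UU e t η 1) :=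
    (continuous_UU e t).comp (continuous_id.prodMk continuous_const)
  exact continuous_mk (continuous_vec3 (by fun_prop) (by fun_prop) h) _

theorem continuous_gam' (e : ℕ) (t : Fin N → ℂ) : Continuous (gam' e t) := by
  have h : Continuous (fun r : ℂ => LP (sp t) 1 r) :=
    (continuous_LP (sp t)).comp (continuous_const.prodMk continuous_id)
  have h2 : Continuous (fun r : ℂ => UU e t 1 r) :=
    (continuous_UU e t).comp (continuous_const.prodMk continuous_id)
  exact continuous_mk (continuous_vec3 (by fun_prop) (by fun_prop) (by fun_prop)) _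

theorem gam'_eq (e : ℕ) (t : Fin N → ℂ) (r : ℂ) (hr : r ≠ 0) : gam' e t r = gam e t r⁻¹ := by
  have hP : LP (sp t) 1 r = r ^ (sp t).card * LP (sp t) r⁻¹ 1 := by
    have h := LP_smul (sp t) r r⁻¹ 1
    rwa [mul_inv_cancel₀ hr, mul_one] at h
  have hU : UU e t 1 r = r ^ ((sp t).card + 1 + e) * UU e t r⁻¹ 1 := by
    have h := UU_smul e t r r⁻¹ 1
    rwa [mul_inv_cancel₀ hr, mul_one] at h
  unfold gam gam'
  rw [Projectivization.mk_eq_mk_iff']
  refine ⟨r ^ ((sp t).card + 1 + e), ?_⟩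
  have e1 : r ^ ((sp t).card + 1 + e) = r ^ (sp t).card * r ^ (1 + e) := by
    rw [← pow_add]; congr 1; ring
  have e2 : r ^ ((sp t).card + 1 + e) = r ^ (sp t).card * r ^ e * r := by
    rw [← pow_add, ← pow_succ]; congr 1; ring
  ext k
  fin_cases k
  · simp only [Fin.zero_eta, Pi.smul_apply, Matrix.cons_val_zero, smul_eq_mul]
    rw [hU]
    ring
  · simp only [Fin.mk_one, Pi.smul_apply, Matrix.cons_val_one, Matrix.cons_val_zero, smul_eq_mul]
    rw [hP, e2]
    field_simp
  · simp only [Fin.reduceFinMk, Pi.smul_apply, Matrix.cons_val, smul_eq_mul]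
    rw [hP, e1]
    ring

theorem gam_fibre (e : ℕ) (t : Fin N → ℂ) (p : Plane) : (gam e t ⁻¹' {p}).Finite := by
  have h1 := finite_zeros (sp t)
  have h2 : {η : ℂ | LP (sp t) η 1 ≠ 0 ∧ gam e t η = p}.Subsingleton := by
    rintro η ⟨hη, h⟩ η' ⟨_, h'⟩
    rw [← h'] at h
    unfold gam at h
    rw [Projectivization.mk_eq_mk_iff'] at h
    obtain ⟨a, ha⟩ := h
    have g1 := congrFun ha 1
    have g2 := congrFun ha 2
    simp only [Pi.smul_apply, Matrix.cons_val_one, Matrix.cons_val_zero, Matrix.cons_val,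
      smul_eq_mul] at g1 g2
    have g3 : η * LP (sp t) η 1 = η' * LP (sp t) η 1 := by
      rw [← g1, ← g2]; ring
    exact mul_right_cancel₀ hη g3
  apply (h1.union h2.finite).subset
  intro η hη
  by_cases h : LP (sp t) η 1 = 0
  · left; exact h
  · right; exact ⟨h, hη⟩

/-- the closed graph -/
def Gam (e : ℕ) (t : Fin N → ℂ) : Set Plane := Set.range (gam e t) ∪ Set.range (gam' e t)

theorem Gam_preconnected (e : ℕ) (t : Fin N → ℂ) (p : Plane) :
    IsPreconnected (Gam e t \ {p}) :=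
  arc_preconnected (continuous_gam e t) (continuous_gam' e t) (gam'_eq e t) p (gam_fibre e t p)

theorem gam'_zero {e : ℕ} (he : e ≠ 0) (t : Fin N → ℂ) : gam' e t 0 = cpt := by
  unfold gam' cpt
  rw [Projectivization.mk_eq_mk_iff']
  refine ⟨-1, ?_⟩
  ext k
  fin_cases k
  · simp [UU_one_zero]
  · simp [he]
  · simp

theorem cpt_mem_Gam {e : ℕ} {t : Fin N → ℂ} (h : e ≠ 0 ∨ (sp t).Nonempty) : cpt ∈ Gam e t := by
  rcases h with h | ⟨i, hi⟩
  · exact Or.inr ⟨0, gam'_zero h t⟩
  · left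
    have h0 : LP (sp t) (((i : ℕ) : ℂ) + 1) 1 = 0 := by
      rw [LP_eq_zero_iff]
      exact ⟨i, hi, by rw [lf_eq_zero_iff, mul_one]⟩
    refine ⟨((i : ℕ) : ℂ) + 1, ?_⟩
    unfold gam cpt
    rw [Projectivization.mk_eq_mk_iff']
    refine ⟨-(UU e t (((i : ℕ) : ℂ) + 1) 1), ?_⟩
    ext k
    fin_cases k
    · simp
    · simp [h0]
    · simp [h0]

theorem gam_mem (e : ℕ) (t : Fin N → ℂ) (η : ℂ) : gam e t η ∈ exc (FF N e t) := by
  unfold gam
  rw [mk_mem_exc]
  unfold Gv
  rw [G_factor]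
  simp only [Matrix.cons_val_zero, Matrix.cons_val_one, Matrix.cons_val]
  obtain ⟨q, hq⟩ : ∃ q, q = LP (sp t) η 1 := ⟨_, rfl⟩
  rw [← hq]
  have hP : LP (sp t) (η * q) q = q ^ (sp t).card * q := by
    have h := LP_smul (sp t) q η 1
    rwa [mul_one, ← hq, mul_comm q η] at h
  have hU : UU e t (η * q) q = q ^ ((sp t).card + 1 + e) * UU e t η 1 := by
    have h := UU_smul e t q η 1
    rwa [mul_one, mul_comm q η] at h
  rw [hP, hU]
  have e1 : q ^ ((sp t).card + 1 + e) = q ^ e * (q ^ (sp t).card * q) := by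
    rw [← pow_succ, ← pow_add]; congr 1; ring
  have key : -(UU e t η 1) * q ^ e * (q ^ (sp t).card * q) +
      q ^ ((sp t).card + 1 + e) * UU e t η 1 = 0 := by
    rw [e1]
    ring
  rw [key, mul_zero]

theorem Gam_subset (e : ℕ) (t : Fin N → ℂ) : Gam e t ⊆ exc (FF N e t) := by
  rintro ℓ (⟨r, rfl⟩ | ⟨r, rfl⟩)
  · exact gam_mem e t r
  · by_cases hr : r = 0
    · rw [hr]
      unfold gam'
      rw [mk_mem_exc]
      unfold Gv G
      simp only [Matrix.cons_val_zero, Matrix.cons_val_one, Matrix.cons_val, UU_one_zero,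
        LP_zero, one_pow, mul_one]
      have h1 : (0 : ℂ) ^ (1 + e) = 0 := zero_pow (by omega)
      rw [h1]
      by_cases he : e = 0
      · subst he
        simp [Hf_zero]
      · simp [he, Hf_zero]
    · rw [gam'_eq e t r hr]
      exact gam_mem e t _

/-- the exceptional curve is the union of the lines and the graph -/
theorem exc_cases {e : ℕ} {t : Fin N → ℂ} {ℓ : Plane} (hℓ : ℓ ∈ exc (FF N e t)) :
    ℓ ∈ Gam e t ∨ ∃ i : Fin N, ℓ ∈ Lbar i := by
  by_cases hz : ℓ.rep 2 = 0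
  · have hG := exc_subset hℓ
    unfold Gv G at hG
    rw [hz, LP_zero, Finset.card_univ, Fintype.card_fin] at hG
    simp only [Hf_zero, mul_zero, Finset.sum_const_zero, add_zero] at hG
    by_cases he : e = 0
    · subst he
      rw [pow_zero, mul_one, add_zero, pow_one] at hG
      rcases mul_eq_zero.1 hG with h1 | h1
      · left
        right
        refine ⟨0, ?_⟩
        rw [← ℓ.mk_rep]
        unfold gam'
        rw [Projectivization.mk_eq_mk_iff']
        have h2 : ℓ.rep 0 = -ℓ.rep 1 := eq_neg_of_add_eq_zero_left h1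
        have h3 : ℓ.rep 1 ≠ 0 := by
          intro h3
          apply ℓ.rep_nonzero
          ext k
          fin_cases k
          · simp [h2, h3]
          · simp [h3]
          · simp [hz]
        refine ⟨(ℓ.rep 1)⁻¹, ?_⟩
        ext k
        fin_cases k
        · simp [UU_one_zero, h2, h3]
        · simp [LP_zero, h3]
        · simp [hz]
      · right
        have hN : N ≠ 0 := by
          rintro rfl
          simp at h1
        have h3 : ℓ.rep 1 = 0 := by
          have h4 := pow_eq_zero_iff (three_ne_zero) |>.1 h1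
          exact pow_eq_zero_iff hN |>.1 h4
        rw [eq_cpt ⟨h3, hz⟩]
        exact ⟨⟨0, Nat.pos_of_ne_zero hN⟩, cpt_mem_Lbar _⟩
    · left
      rw [zero_pow he, mul_zero, zero_add] at hG
      have h3 : ℓ.rep 1 = 0 := by
        rcases mul_eq_zero.1 hG with h1 | h1
        · exact pow_eq_zero_iff (by omega) |>.1 h1
        · have h4 := pow_eq_zero_iff (three_ne_zero) |>.1 h1
          by_cases hN : N = 0
          · subst hN
            simp at h4
          · exact pow_eq_zero_iff hN |>.1 h4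
      rw [eq_cpt ⟨h3, hz⟩]
      exact cpt_mem_Gam (Or.inl he)
  · have hG := exc_subset hℓ
    unfold Gv at hG
    by_cases hP : LP (univ : Finset (Fin N)) (ℓ.rep 1) (ℓ.rep 2) = 0
    · right
      obtain ⟨i, _, h1⟩ := (LP_eq_zero_iff _ _ _).1 hP
      rw [lf_eq_zero_iff] at h1
      refine ⟨i, Or.inl ⟨ℓ.rep 0 / ℓ.rep 2, ?_⟩⟩
      nth_rewrite 3 [← ℓ.mk_rep]
      unfold lam
      symm
      rw [Projectivization.mk_eq_mk_iff']
      refine ⟨ℓ.rep 2, ?_⟩
      ext k
      fin_cases k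
      · simp only [Fin.zero_eta, Pi.smul_apply, Matrix.cons_val_zero, smul_eq_mul]
        rw [mul_div_cancel₀ _ hz]
      · simp only [Fin.mk_one, Pi.smul_apply, Matrix.cons_val_one, Matrix.cons_val_zero,
          smul_eq_mul]
        rw [h1, mul_comm]
      · simp
    · left
      left
      rw [G_factor] at hG
      rw [LP_sp_split t] at hP
      have hPJ := left_ne_zero_of_mul hP
      have hQJ := right_ne_zero_of_mul hP
      have hE := (mul_eq_zero.1 hG).resolve_left (mul_ne_zero (pow_ne_zero _ hPJ)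
        (pow_ne_zero _ hQJ))
      obtain ⟨x, hx⟩ : ∃ x, x = ℓ.rep 0 := ⟨_, rfl⟩
      obtain ⟨y, hy⟩ : ∃ y, y = ℓ.rep 1 := ⟨_, rfl⟩
      obtain ⟨z, hz'⟩ : ∃ z, z = ℓ.rep 2 := ⟨_, rfl⟩
      rw [← hx, ← hy, ← hz'] at hE
      rw [← hy, ← hz'] at hPJ
      rw [← hz'] at hz
      obtain ⟨q, hq⟩ : ∃ q, q = LP (sp t) (y / z) 1 := ⟨_, rfl⟩
      obtain ⟨w, hw⟩ : ∃ w, w = UU e t (y / z) 1 := ⟨_, rfl⟩
      have hP2 : LP (sp t) y z = z ^ (sp t).card * q := by
        have h := LP_smul (sp t) z (y / z) 1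
        rwa [mul_one, ← hq, mul_div_cancel₀ _ hz] at h
      have hU2 : UU e t y z = z ^ ((sp t).card + 1 + e) * w := by
        have h := UU_smul e t z (y / z) 1
        rwa [mul_one, ← hw, mul_div_cancel₀ _ hz] at h
      have hq0 : q ≠ 0 := by
        rw [hP2] at hPJ
        exact right_ne_zero_of_mul hPJ
      have hx2 : x * q + z * w = 0 := by
        rw [hP2, hU2] at hE
        have e1 : z ^ ((sp t).card + 1 + e) = z ^ e * z ^ (sp t).card * z := by
          rw [← pow_add, ← pow_succ]; congr 1; ring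
        have hE2 : (z ^ e * z ^ (sp t).card) * (x * q + z * w) = 0 := by
          rw [← hE, e1]
          ring
        exact (mul_eq_zero.1 hE2).resolve_left (mul_ne_zero (pow_ne_zero _ hz)
          (pow_ne_zero _ hz))
      refine ⟨y / z, ?_⟩
      rw [← ℓ.mk_rep]
      unfold gam
      symm
      rw [Projectivization.mk_eq_mk_iff']
      refine ⟨z / q, ?_⟩
      rw [← hq, ← hw]
      ext k
      fin_cases k
      · simp only [Fin.zero_eta, Pi.smul_apply, Matrix.cons_val_zero, smul_eq_mul]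
        rw [← hx]
        field_simp
        linear_combination -hx2
      · simp only [Fin.mk_one, Pi.smul_apply, Matrix.cons_val_one, Matrix.cons_val_zero,
          smul_eq_mul]
        rw [← hy]
        field_simp
      · simp only [Fin.reduceFinMk, Pi.smul_apply, Matrix.cons_val, smul_eq_mul]
        rw [← hz']
        field_simp

/-- the point where a line of a vanishing parameter meets the graph -/
theorem exists_meet (e : ℕ) {t : Fin N → ℂ} {i : Fin N} (hi : i ∉ sp t) :
    gam e t (((i : ℕ) : ℂ) + 1) ∈ Lbar i ∧ gam e t (((i : ℕ) : ℂ) + 1) ≠ cpt := by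
  have hq0 : LP (sp t) (((i : ℕ) : ℂ) + 1) 1 ≠ 0 := by
    intro h
    obtain ⟨k, hk, h1⟩ := (LP_eq_zero_iff _ _ _).1 h
    have h2 : lf i (((i : ℕ) : ℂ) + 1) 1 = 0 := by rw [lf_eq_zero_iff, mul_one]
    have h3 := lf_inj (one_ne_zero (α := ℂ)) h1 h2
    rw [h3] at hk
    exact hi hk
  constructor
  · left
    refine ⟨-(UU e t (((i : ℕ) : ℂ) + 1) 1) / LP (sp t) (((i : ℕ) : ℂ) + 1) 1, ?_⟩
    unfold lam gam
    symm
    rw [Projectivization.mk_eq_mk_iff']
    refine ⟨LP (sp t) (((i : ℕ) : ℂ) + 1) 1, ?_⟩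
    ext k
    fin_cases k
    · simp only [Fin.zero_eta, Pi.smul_apply, Matrix.cons_val_zero, smul_eq_mul]
      rw [mul_div_cancel₀ _ hq0]
    · simp only [Fin.mk_one, Pi.smul_apply, Matrix.cons_val_one, Matrix.cons_val_zero,
        smul_eq_mul]
      ring
    · simp
  · exact mk_ne_cpt _ (by simpa using hq0)

/-- two lines of vanishing parameters meet the graph in different points -/
theorem meet_ne (e : ℕ) {t : Fin N → ℂ} {i k : Fin N} (hi : i ∉ sp t) (hk : k ∉ sp t)
    (hik : i ≠ k) : gam e t (((i : ℕ) : ℂ) + 1) ≠ gam e t (((k : ℕ) : ℂ) + 1) := by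
  have hq0 : ∀ i : Fin N, i ∉ sp t → LP (sp t) (((i : ℕ) : ℂ) + 1) 1 ≠ 0 := by
    intro i hi h
    obtain ⟨k, hk, h1⟩ := (LP_eq_zero_iff _ _ _).1 h
    have h2 : lf i (((i : ℕ) : ℂ) + 1) 1 = 0 := by rw [lf_eq_zero_iff, mul_one]
    have h3 := lf_inj (one_ne_zero (α := ℂ)) h1 h2
    rw [h3] at hk
    exact hi hk
  intro h
  unfold gam at h
  rw [Projectivization.mk_eq_mk_iff'] at h
  obtain ⟨a, ha⟩ := h
  have g1 := congrFun ha 1
  have g2 := congrFun ha 2
  simp only [Pi.smul_apply, Matrix.cons_val_one, Matrix.cons_val_zero, Matrix.cons_val,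
    smul_eq_mul] at g1 g2
  have g3 : (((i : ℕ) : ℂ) + 1) * LP (sp t) (((i : ℕ) : ℂ) + 1) 1 =
      (((k : ℕ) : ℂ) + 1) * LP (sp t) (((i : ℕ) : ℂ) + 1) 1 := by
    rw [← g1, ← g2]; ring
  have g4 := mul_right_cancel₀ (hq0 i hi) g3
  have g5 : ((i : ℕ) : ℂ) = ((k : ℕ) : ℂ) := add_right_cancel g4
  exact hik (Fin.ext (by exact_mod_cast g5))

theorem exists_Lbar (i : Fin N) (p : Plane) : ∃ x, x ∈ Lbar i \ {p} := by
  by_cases hp : p = cpt
  · refine ⟨lam i 0, Or.inl ⟨0, rfl⟩, ?_⟩
    rw [hp]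
    exact mk_ne_cpt _ (by simp)
  · exact ⟨cpt, cpt_mem_Lbar i, fun h => hp h.symm⟩

theorem exists_Gam (e : ℕ) (t : Fin N → ℂ) (p : Plane) : ∃ x, x ∈ Gam e t \ {p} := by
  by_cases hp : p = cpt
  · refine ⟨gam e t 0, Or.inl ⟨0, rfl⟩, ?_⟩
    rw [hp]
    apply mk_ne_cpt
    simp only [Matrix.cons_val]
    intro h
    obtain ⟨i, _, h2⟩ := (LP_eq_zero_iff _ _ _).1 h
    rw [lf_eq_zero_iff, mul_one] at h2
    exact Nat.cast_add_one_ne_zero (R := ℂ) (i : ℕ) h2.symm
  · by_cases h : p = gam e t 0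
    · refine ⟨gam e t (-1), Or.inl ⟨-1, rfl⟩, ?_⟩
      rw [h]
      intro h1
      have h1 : gam e t (-1) = gam e t 0 := h1
      unfold gam at h1
      rw [Projectivization.mk_eq_mk_iff'] at h1
      obtain ⟨a, ha⟩ := h1
      have g1 := congrFun ha 1
      simp only [Pi.smul_apply, Matrix.cons_val_one, Matrix.cons_val_zero, smul_eq_mul,
        zero_mul, mul_zero] at g1
      have h2 : LP (sp t) (-1) 1 = 0 := by
        rw [neg_one_mul, eq_comm, neg_eq_zero] at g1
        exact g1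
      obtain ⟨i, _, h3⟩ := (LP_eq_zero_iff _ _ _).1 h2
      rw [lf_eq_zero_iff, mul_one] at h3
      have h4 : (((i : ℕ) + 2 : ℕ) : ℂ) = 0 := by
        push_cast
        linear_combination -h3
      have h5 : (i : ℕ) + 2 = 0 := by exact_mod_cast h4
      omega
    · exact ⟨gam e t 0, Or.inl ⟨0, rfl⟩, fun h1 => h h1.symm⟩

theorem const_on {n : ℕ} {f : Plane → Fin n} {s t : Set Plane} (hf : ContinuousOn f s)
    (ht : IsPreconnected t) (hts : t ⊆ s) {x y : Plane} (hx : x ∈ t) (hy : y ∈ t) :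
    f x = f y :=
  (ht.image f (hf.mono hts)).subsingleton ⟨x, hx, rfl⟩ ⟨y, hy, rfl⟩

theorem upper {e : ℕ} (hNe : e ≠ 0 ∨ N ≠ 1) (t : Fin N → ℂ) {n : ℕ} (p : Plane)
    (f : Plane → Fin n)
    (hf : ContinuousOn f (exc (FF N e t) \ {p}))
    (hs : ∀ a, ∃ x ∈ exc (FF N e t) \ {p}, f x = a) : n ≤ (sp t).card + 1 := by
  classical
  obtain ⟨g, hg⟩ := exists_Gam e t p
  choose l hl using fun i : Fin N => exists_Lbar i p
  have hGs : Gam e t \ {p} ⊆ exc (FF N e t) \ {p} :=
    Set.sdiff_subset_sdiff_left (Gam_subset e t)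
  have hLs : ∀ i : Fin N, Lbar i \ {p} ⊆ exc (FF N e t) \ {p} :=
    fun i => Set.sdiff_subset_sdiff_left (Lbar_subset e t i)
  -- the lines of the vanishing parameters belong to the piece of the graph
  have hmeet : ∀ i : Fin N, i ∉ sp t → gam e t (((i : ℕ) : ℂ) + 1) ≠ p →
      ∀ x ∈ Lbar i \ {p}, f x = f g := by
    intro i hi hne x hx
    exact (const_on hf (Lbar_preconnected i p) (hLs i) hx ⟨(exists_meet e hi).1, hne⟩).trans
      (const_on hf (Gam_preconnected e t p) hGs ⟨Or.inl ⟨_, rfl⟩, hne⟩ hg)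
  have hline : ∀ i : Fin N, i ∉ sp t → ∀ x ∈ Lbar i \ {p}, f x = f g := by
    intro i hi x hx
    by_cases hne : gam e t (((i : ℕ) : ℂ) + 1) = p
    · have hpc : cpt ≠ p := by
        rw [← hne]
        exact (exists_meet e hi).2.symm
      have h1 : f x = f cpt :=
        const_on hf (Lbar_preconnected i p) (hLs i) hx ⟨cpt_mem_Lbar i, hpc⟩
      by_cases hG : e ≠ 0 ∨ (sp t).Nonempty
      · exact h1.trans (const_on hf (Gam_preconnected e t p) hGs ⟨cpt_mem_Gam hG, hpc⟩ hg)
      · push Not at hG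
        have hN1 : N ≠ 1 := hNe.resolve_left (not_not.2 hG.1)
        obtain ⟨k, hk⟩ : ∃ k : Fin N, i ≠ k := by
          have h2 : 2 ≤ N := by
            have := i.2
            omega
          by_cases hi0 : (i : ℕ) = 0
          · exact ⟨⟨1, by omega⟩, fun h => by rw [h] at hi0; simp at hi0⟩
          · exact ⟨⟨0, by omega⟩, fun h => hi0 (by rw [h])⟩
        have hks : k ∉ sp t := by rw [hG.2]; simp
        have hne2 : gam e t (((k : ℕ) : ℂ) + 1) ≠ p := by
          rw [← hne]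
          exact (meet_ne e hi hks hk).symm
        exact h1.trans (hmeet k hks hne2 cpt ⟨cpt_mem_Lbar k, hpc⟩)
    · exact hmeet i hi hne x hx
  have hsub : (Finset.univ : Finset (Fin n)) ⊆
      insert (f g) ((sp t).image (fun i => f (l i))) := by
    intro a _
    obtain ⟨x, ⟨hx, hxp⟩, rfl⟩ := hs a
    rw [Finset.mem_insert, Finset.mem_image]
    rcases exc_cases hx with h | ⟨i, h⟩
    · left
      exact const_on hf (Gam_preconnected e t p) hGs ⟨h, hxp⟩ hg
    · by_cases hij : i ∈ sp t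
      · right
        exact ⟨i, hij, const_on hf (Lbar_preconnected i p) (hLs i) (hl i) ⟨h, hxp⟩⟩
      · left
        exact hline i hij x ⟨h, hxp⟩
  have h1 := Finset.card_le_card hsub
  rw [Finset.card_univ, Fintype.card_fin] at h1
  have h2 := Finset.card_insert_le (f g) ((sp t).image (fun i => f (l i)))
  have h3 := Finset.card_image_le (s := sp t) (f := fun i => f (l i))
  omega

/-- homeomorphic exceptional curves have the same number of pieces -/
theorem card_le_of_homeo {e : ℕ} (h1 : 1 ≤ N + e) (h2 : e ≠ 0 ∨ N ≠ 1) {t t' : Fin N → ℂ}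
    (h : exc (FF N e t) ≃ₜ exc (FF N e t')) : (sp t).card ≤ (sp t').card := by
  classical
  obtain ⟨p, hp, f, hf, hs⟩ := lower h1 t
  have key : (sp t).card + 1 ≤ (sp t').card + 1 := by
    apply upper h2 t' (h ⟨p, hp⟩ : Plane)
      (fun y => if hy : y ∈ exc (FF N e t') then f (h.symm ⟨y, hy⟩ : Plane) else 0)
    · rw [continuousOn_iff_continuous_domRestrict]
      rw [continuousOn_iff_continuous_domRestrict] at hf
      obtain ⟨k, hk⟩ : ∃ k : ↥(exc (FF N e t') \ {(h ⟨p, hp⟩ : Plane)}) → ↥(exc (FF N e t) \ {p}),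
          Continuous k ∧ ∀ y, (k y : Plane) = (h.symm ⟨y.1, y.2.1⟩ : Plane) := by
        refine ⟨fun y => ⟨(h.symm ⟨y.1, y.2.1⟩ : Plane), (h.symm ⟨y.1, y.2.1⟩).2, ?_⟩, ?_, fun y => rfl⟩
        · intro hy
          apply y.2.2
          have h1 : h.symm ⟨y.1, y.2.1⟩ = ⟨p, hp⟩ := Subtype.ext hy
          have h2 : h (h.symm ⟨y.1, y.2.1⟩) = h ⟨p, hp⟩ := congrArg h h1
          rw [h.apply_symm_apply] at h2
          exact congrArg Subtype.val h2
        · apply Continuous.subtype_mk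
          exact continuous_subtype_val.comp (h.symm.continuous.comp
            (continuous_subtype_val.subtype_mk _))
      have e1 : (exc (FF N e t') \ {(h ⟨p, hp⟩ : Plane)}).domRestrict
          (fun y => if hy : y ∈ exc (FF N e t') then f (h.symm ⟨y, hy⟩ : Plane) else 0) =
          (exc (FF N e t) \ {p}).domRestrict f ∘ k := by
        funext y
        simp only [Set.domRestrict_apply, Function.comp_apply]
        rw [dif_pos y.2.1, hk.2]
      rw [e1]
      exact hf.comp hk.1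
    · intro a
      obtain ⟨x, ⟨hx, hxp⟩, hxa⟩ := hs a
      refine ⟨(h ⟨x, hx⟩ : Plane), ⟨(h ⟨x, hx⟩).2, ?_⟩, ?_⟩
      · intro h1
        apply hxp
        have h2 : h ⟨x, hx⟩ = h ⟨p, hp⟩ := Subtype.ext h1
        have h3 := h.injective h2
        exact congrArg Subtype.val h3
      · rw [dif_pos (h ⟨x, hx⟩).2]
        have h1 : (⟨(h ⟨x, hx⟩ : Plane), (h ⟨x, hx⟩).2⟩ : exc (FF N e t')) = h ⟨x, hx⟩ := rfl
        rw [h1, h.symm_apply_apply]
        exact hxa
  omega

theorem not_homeo {e : ℕ} (h2 : e ≠ 0 ∨ N ≠ 1) {t t' : Fin N → ℂ}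
    (h : (sp t).card ≠ (sp t').card) : IsEmpty (exc (FF N e t) ≃ₜ exc (FF N e t')) := by
  have h1 : 1 ≤ N + e := by
    by_contra hcon
    have hN : N = 0 := by omega
    subst hN
    apply h
    rw [Subsingleton.elim t t']
  constructor
  intro g
  exact h (le_antisymm (card_le_of_homeo h1 h2 g) (card_le_of_homeo h1 h2 g.symm))

end Pool.Agent.Hhelper97.TopBlow
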